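import Pool.Agent.H58.SEL.Defs

/-!
# The index filters are countably generated
-/

open Filter Topology Set

namespace Pool.Agent.H58.SEL

universe u v

/-- The space with one non-isolated point given by a filter. -/
def Sp {Y : Type v} (_F : Filter Y) : Type v := Option Y

instance {Y : Type v} (F : Filter Y) : TopologicalSpace (Sp F) :=
  nhdsAdjoint (none : Option Y) (map some F)

section Space

variable {Y : Type v} {F : Filter Y}

/-- The non-isolated point. -/
def pt (F : Filter Y) : Sp F := (none : Option Y)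

/-- The isolated points. -/
def inc (F : Filter Y) (t : Y) : Sp F := (some t : Option Y)

theorem inc_ne (t : Y) : inc F t ≠ pt F := Option.some_ne_none t

theorem inc_inj {t t' : Y} (h : inc F t = inc F t') : t = t' := Option.some_injective Y h

theorem sp_cases (z : Sp F) : z = pt F ∨ ∃ t, z = inc F t := by
  rcases z with _ | t
  · exact Or.inl rfl
  · exact Or.inr ⟨t, rfl⟩

theorem nhds_pt {V : Set (Sp F)} : V ∈ 𝓝 (pt F) ↔ pt F ∈ V ∧ {t | inc F t ∈ V} ∈ F := by
  have h : 𝓝 (pt F) = pure (pt F) ⊔ map (inc F) F := nhds_nhdsAdjoint_same _ _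
  rw [h, mem_sup, mem_pure, mem_map]
  rfl

theorem nhds_inc (t : Y) : 𝓝 (inc F t) = pure (inc F t) :=
  nhds_nhdsAdjoint_of_ne _ (inc_ne t)

theorem isOpen_sp {V : Set (Sp F)} : IsOpen V ↔ (pt F ∈ V → {t | inc F t ∈ V} ∈ F) := Iff.rfl

theorem tendsto_pt {α : Type*} {l : Filter α} {a : α → Sp F} :
    Tendsto a l (𝓝 (pt F)) ↔ ∀ S ∈ F, ∀ᶠ n in l, a n = pt F ∨ ∃ t ∈ S, a n = inc F t := by
  constructor
  · intro h S hS
    have h1 : {z : Sp F | z = pt F ∨ ∃ t ∈ S, z = inc F t} ∈ 𝓝 (pt F) := by
      rw [nhds_pt]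
      refine ⟨Or.inl rfl, mem_of_superset hS fun t ht => Or.inr ⟨t, ht, rfl⟩⟩
    exact h h1
  · intro h V hV
    rw [nhds_pt] at hV
    change ∀ᶠ n in l, a n ∈ V
    filter_upwards [h _ hV.2] with n hn
    rcases hn with hn | ⟨t, ht, hn⟩
    · rw [hn]
      exact hV.1
    · rw [hn]
      exact ht

theorem sp_t3 (hF : ∀ t : Y, {s | s ≠ t} ∈ F) : T3Space (Sp F) := by
  have h1 : T1Space (Sp F) := by
    refine ⟨fun z => ?_⟩
    rw [← isOpen_compl_iff, isOpen_sp]
    intro hz
    rcases sp_cases z with rfl | ⟨t, rfl⟩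
    · exact absurd rfl hz
    · refine mem_of_superset (hF t) fun s hs => ?_
      intro h2
      exact hs (inc_inj h2)
  have h2 : RegularSpace (Sp F) := by
    refine RegularSpace.of_exists_mem_nhds_isClosed_subset fun z V hV => ?_
    rcases sp_cases z with rfl | ⟨t, rfl⟩
    · refine ⟨V, hV, ?_, Subset.rfl⟩
      rw [← isOpen_compl_iff, isOpen_sp]
      intro h3
      exact absurd (nhds_pt.1 hV).1 h3
    · refine ⟨{inc F t}, ?_, isClosed_singleton, ?_⟩
      · rw [nhds_inc]
        exact mem_pure.2 rfl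
      · rw [nhds_inc, mem_pure] at hV
        exact singleton_subset_iff.2 hV
  exact {}

theorem sp_cg (h : (𝓝 (pt F)).IsCountablyGenerated) : F.IsCountablyGenerated := by
  have h1 : comap (inc F) (𝓝 (pt F)) = F := by
    ext S
    rw [mem_comap]
    constructor
    · rintro ⟨V, hV, h2⟩
      exact mem_of_superset (nhds_pt.1 hV).2 h2
    · intro hS
      refine ⟨{z | z = pt F ∨ ∃ t ∈ S, z = inc F t}, ?_, ?_⟩
      · rw [nhds_pt]
        exact ⟨Or.inl rfl, mem_of_superset hS fun t ht => Or.inr ⟨t, ht, rfl⟩⟩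
      · rintro t (h3 | ⟨s, hs, h3⟩)
        · exact absurd h3 (inc_ne t)
        · rw [inc_inj h3]
          exact hs
  rw [← h1]
  infer_instance

end Space

section

variable {X : Type u} [TopologicalSpace X]

theorem seqsel' (hX : StronglySelective ℕ∞ X) (S : ℕ → Set X) (x : X)
    (h : ∀ U ∈ 𝓝 x, ∀ᶠ n in atTop, (S n ∩ U).Nonempty) :
    ∃ z : ℕ → X, (∀ᶠ n in atTop, z n ∈ S n) ∧ Tendsto z atTop (𝓝 x) := by
  classical
  obtain ⟨z, hz1, hz2⟩ := seqsel hX (fun n => if (S n).Nonempty then S n else {x}) (by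
    intro n
    split_ifs with h1
    · exact h1
    · exact singleton_nonempty x) x (by
    intro U hU
    filter_upwards [h U hU] with n hn
    rw [if_pos (hn.mono inter_subset_left)]
    exact hn)
  refine ⟨z, ?_, hz2⟩
  filter_upwards [h univ univ_mem] with n hn
  have h1 := hz1 n
  rw [if_pos (hn.mono inter_subset_left)] at h1
  exact h1

variable {Y : Type} {φ : Y → Set X} {x : X}

theorem fl_frechet (hX : StronglySelective ℕ∞ X) : FrechetUrysohnSpace (Sp (Fl φ x)) := by
  refine ⟨fun s a ha => ?_⟩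
  rw [mem_closure_iff_nhds] at ha
  rcases sp_cases a with rfl | ⟨t, rfl⟩
  · by_cases h0 : pt (Fl φ x) ∈ s
    · exact ⟨fun _ => pt _, fun _ => h0, tendsto_const_nhds⟩
    · obtain ⟨z, hz1, hz2⟩ := seqsel' hX (fun _ => ⋃ t ∈ {t | inc (Fl φ x) t ∈ s}, φ t) x (by
        intro U hU
        refine Eventually.of_forall fun n => ?_
        have h1 : {z : Sp (Fl φ x) | z = pt _ ∨ ∃ t, (φ t ∩ U).Nonempty ∧ z = inc _ t} ∈
            𝓝 (pt (Fl φ x)) := by
          rw [nhds_pt]
          refine ⟨Or.inl rfl, ?_⟩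
          rw [mem_fl]
          exact ⟨U, hU, fun t ht => Or.inr ⟨t, ht, rfl⟩⟩
        obtain ⟨w, hw1, hw2⟩ := ha _ h1
        rcases hw1 with hw1 | ⟨t, ⟨y, hy1, hy2⟩, hw1⟩
        · rw [hw1] at hw2
          exact absurd hw2 h0
        · rw [hw1] at hw2
          exact ⟨y, mem_biUnion (show t ∈ {t | inc (Fl φ x) t ∈ s} from hw2) hy1, hy2⟩)
      obtain ⟨N, hN⟩ := eventually_atTop.1 hz1
      have h2 : ∀ n, ∃ t, inc (Fl φ x) t ∈ s ∧ z (n + N) ∈ φ t := by
        intro n
        have := hN (n + N) (Nat.le_add_left _ _)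
        rw [mem_iUnion₂] at this
        obtain ⟨t, ht, h3⟩ := this
        exact ⟨t, ht, h3⟩
      choose t ht1 ht2 using h2
      refine ⟨fun n => inc _ (t n), ht1, ?_⟩
      rw [tendsto_pt]
      intro S hS
      rw [mem_fl] at hS
      obtain ⟨U, hU, hUS⟩ := hS
      have h3 : Tendsto (fun n => z (n + N)) atTop (𝓝 x) :=
        hz2.comp (tendsto_add_atTop_nat N)
      filter_upwards [h3 hU] with n hn
      exact Or.inr ⟨t n, hUS ⟨z (n + N), ht2 n, hn⟩, rfl⟩
  · have h1 := ha {inc _ t} (by rw [nhds_inc]; exact mem_pure.2 rfl)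
    obtain ⟨w, hw1, hw2⟩ := h1
    rw [mem_singleton_iff] at hw1
    rw [hw1] at hw2
    exact ⟨fun _ => inc _ t, fun _ => hw2, tendsto_const_nhds⟩

theorem eventually_eq_range_finite {α : Type*} {s : ℕ → α} {a : α}
    (h : ∀ᶠ i in atTop, s i = a) : (range s).Finite := by
  obtain ⟨N, hN⟩ := eventually_atTop.1 h
  refine (((finite_lt_nat N).image s).union (finite_singleton a)).subset ?_
  rintro _ ⟨i, rfl⟩
  by_cases hi : i < N
  · exact Or.inl ⟨i, hi, rfl⟩
  · exact Or.inr (hN i (by omega))

theorem fl_alpha (hX : StronglySelective ℕ∞ X) (hφ : ∀ t, x ∉ closure (φ t)) :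
    AlphaOne (Sp (Fl φ x)) := by
  classical
  intro z s hs
  rcases sp_cases z with rfl | ⟨t, rfl⟩
  · by_cases hp : ∃ p : ℕ → Y, Tendsto p atTop (Fl φ x)
    · obtain ⟨p, hp⟩ := hp
      rw [tendsto_fl] at hp
      -- the sets from which we select
      set Φ : Sp (Fl φ x) → Set X := fun z => {y | (z = pt _ ∧ y = x) ∨ ∃ t, z = inc _ t ∧ y ∈ φ t}
        with hΦ
      set P : ℕ → Set X := fun n => Φ (s n.unpair.1 n.unpair.2) ∪ φ (p n.unpair.1) with hP
      have hev : ∀ U ∈ 𝓝 x, ∀ᶠ n in atTop, (P n ∩ U).Nonempty := by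
        intro U hU
        obtain ⟨J, hJ⟩ := eventually_atTop.1 (hp U hU)
        have h1 : ∀ j, ∃ I, ∀ i, I ≤ i → (Φ (s j i) ∩ U).Nonempty := by
          intro j
          have h2 := tendsto_pt.1 (hs j) {t | (φ t ∩ U).Nonempty}
            (mem_fl.2 ⟨U, hU, Subset.rfl⟩)
          obtain ⟨I, hI⟩ := eventually_atTop.1 h2
          refine ⟨I, fun i hi => ?_⟩
          rcases hI i hi with h3 | ⟨t, ⟨y, hy1, hy2⟩, h3⟩
          · exact ⟨x, Or.inl ⟨h3, rfl⟩, mem_of_mem_nhds hU⟩
          · exact ⟨y, Or.inr ⟨t, h3, hy1⟩, hy2⟩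
        choose I hI using h1
        have hfin : {n : ℕ | ¬ (P n ∩ U).Nonempty}.Finite := by
          refine (((finite_lt_nat J).biUnion fun j _ =>
            (finite_lt_nat (I j)).image (Nat.pair j))).subset ?_
          intro n hn
          rw [mem_iUnion₂]
          refine ⟨n.unpair.1, ?_, n.unpair.2, ?_, Nat.pair_unpair n⟩
          · change n.unpair.1 < J
            by_contra hc
            push Not at hc
            exact hn ((hJ _ hc).mono (inter_subset_inter_left _ subset_union_right))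
          · change n.unpair.2 < I n.unpair.1
            by_contra hc
            push Not at hc
            exact hn ((hI _ _ hc).mono (inter_subset_inter_left _ subset_union_left))
        have := hfin.eventually_cofinite_notMem
        rw [Nat.cofinite_eq_atTop] at this
        filter_upwards [this] with n hn
        by_contra hc
        exact hn hc
      obtain ⟨z, hz1, hz2⟩ := seqsel' hX P x hev
      set t : ℕ → Sp (Fl φ x) := fun n =>
        if z n ∈ Φ (s n.unpair.1 n.unpair.2) then s n.unpair.1 n.unpair.2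
        else inc _ (p n.unpair.1) with ht
      refine ⟨t, ?_, fun k => ?_⟩
      · rw [tendsto_pt]
        intro S hS
        rw [mem_fl] at hS
        obtain ⟨U, hU, hUS⟩ := hS
        filter_upwards [hz1, hz2 hU] with n h1 h2
        by_cases h3 : z n ∈ Φ (s n.unpair.1 n.unpair.2)
        · have h4 : t n = s n.unpair.1 n.unpair.2 := if_pos h3
          rw [h4]
          rcases h3 with h3 | ⟨t', h5, h6⟩
          · exact Or.inl h3.1
          · exact Or.inr ⟨t', hUS ⟨z n, h6, h2⟩, h5⟩
        · have h4 : t n = inc _ (p n.unpair.1) := if_neg h3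
          rw [h4]
          refine Or.inr ⟨_, hUS ⟨z n, ?_, h2⟩, rfl⟩
          rcases h1 with h1 | h1
          · exact absurd h1 h3
          · exact h1
      · have h1 : Tendsto (fun i => z (Nat.pair k i)) atTop (𝓝 x) := by
          refine hz2.comp ?_
          rw [← Nat.cofinite_eq_atTop]
          refine Function.Injective.tendsto_cofinite ?_
          intro i i' h
          exact (Nat.pair_eq_pair.1 h).2
        have h2 : (closure (φ (p k)))ᶜ ∈ 𝓝 x :=
          isClosed_closure.isOpen_compl.mem_nhds (hφ (p k))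
        have h3 : ∀ᶠ i in atTop, z (Nat.pair k i) ∈ P (Nat.pair k i) := by
          have h4 : Tendsto (fun i => Nat.pair k i) atTop atTop := by
            rw [← Nat.cofinite_eq_atTop]
            refine Function.Injective.tendsto_cofinite ?_
            intro i i' h
            exact (Nat.pair_eq_pair.1 h).2
          exact h4.eventually hz1
        obtain ⟨I, hI⟩ := eventually_atTop.1 (h3.and (h1 h2))
        refine ((finite_lt_nat I).image (s k)).subset ?_
        rintro _ ⟨⟨i, rfl⟩, h5⟩
        refine ⟨i, ?_, rfl⟩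
        change i < I
        by_contra hc
        push Not at hc
        apply h5
        refine ⟨Nat.pair k i, ?_⟩
        obtain ⟨h6, h7⟩ := hI i hc
        have e1 : (Nat.pair k i).unpair.1 = k := by rw [Nat.unpair_pair]
        have e2 : (Nat.pair k i).unpair.2 = i := by rw [Nat.unpair_pair]
        have h8 : z (Nat.pair k i) ∈ Φ (s k i) := by
          rcases h6 with h6 | h6
          · rwa [e1, e2] at h6
          · rw [e1] at h6
            exact absurd (subset_closure h6) h7
        have h9 : t (Nat.pair k i) = s (Nat.pair k i).unpair.1 (Nat.pair k i).unpair.2 := by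
          apply if_pos
          rw [e1, e2]
          exact h8
        rw [h9, e1, e2]
    · refine ⟨fun _ => pt _, tendsto_const_nhds, fun k => ?_⟩
      have h1 : ∀ᶠ i in atTop, s k i = pt _ := by
        by_contra hc
        obtain ⟨ρ, hρ, hρ2⟩ := extraction_of_frequently_atTop (not_eventually.1 hc)
        have h2 : ∀ n, ∃ t, s k (ρ n) = inc _ t := by
          intro n
          rcases sp_cases (s k (ρ n)) with h3 | h3
          · exact absurd h3 (hρ2 n)
          · exact h3
        choose t ht using h2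
        apply hp
        refine ⟨t, ?_⟩
        intro S hS
        have h3 := tendsto_pt.1 ((hs k).comp hρ.tendsto_atTop) S hS
        change ∀ᶠ n in atTop, t n ∈ S
        filter_upwards [h3] with n hn
        simp only [Function.comp] at hn
        rw [ht n] at hn
        rcases hn with hn | ⟨t', ht', hn⟩
        · exact absurd hn (inc_ne _)
        · rw [inc_inj hn]
          exact ht'
      exact (eventually_eq_range_finite h1).subset diff_subset
  · refine ⟨fun _ => inc _ t, tendsto_const_nhds, fun k => ?_⟩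
    have h1 : ∀ᶠ i in atTop, s k i = inc _ t := by
      have h2 := hs k
      rw [nhds_inc, tendsto_pure] at h2
      exact h2
    exact (eventually_eq_range_finite h1).subset diff_subset

/-- A criterion: the sequences of sets. -/
theorem strong_of_seq {Z : Type u} [TopologicalSpace Z]
    (h : ∀ (S : ℕ → Set Z) (z : Z), (∀ n, (S n).Nonempty) →
      (∀ U ∈ 𝓝 z, ∀ᶠ n in atTop, (S n ∩ U).Nonempty) →
      ∃ a : ℕ → Z, (∀ᶠ n in atTop, a n ∈ S n) ∧ Tendsto a atTop (𝓝 z)) :
    StronglySelective ℕ∞ Z := by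
  classical
  intro φ hφ hne
  obtain ⟨z, hz⟩ := hne ⊤
  obtain ⟨a, ha1, ha2⟩ := h (fun n => φ n) z (fun n => hne n) (by
    intro U hU
    have h1 : {y | (φ y ∩ interior U).Nonempty} ∈ 𝓝 (⊤ : ℕ∞) :=
      (hφ _ isOpen_interior).mem_nhds ⟨z, hz, mem_interior_iff_mem_nhds.2 hU⟩
    have h2 := ENat.tendsto_natCast_nhds_top h1
    filter_upwards [h2] with n hn
    exact Set.Nonempty.mono (inter_subset_inter_right _ interior_subset) hn)
  choose c hc using hne
  set b : ℕ → Z := fun n => if a n ∈ φ n then a n else c n with hb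
  have hb1 : ∀ n : ℕ, b n ∈ φ (n : ℕ∞) := by
    intro n
    rw [hb]
    simp only
    split_ifs with h1
    · exact h1
    · exact hc n
  have hb2 : Tendsto b atTop (𝓝 z) := by
    refine ha2.congr' ?_
    filter_upwards [ha1] with n hn
    rw [hb]
    simp only
    rw [if_pos hn]
  set f : ℕ∞ → Z := fun m => if m = ⊤ then z else b m.toNat with hf
  have hft : f ⊤ = z := if_pos rfl
  have hfn : ∀ n : ℕ, f (n : ℕ∞) = b n := fun n => by
    rw [hf]
    simp only [ENat.coe_ne_top, if_false, ENat.toNat_coe]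
  refine ⟨f, ?_, ?_⟩
  · rw [continuous_iff_continuousAt]
    intro m
    by_cases hm : m = ⊤
    · subst hm
      intro U hU
      rw [hft] at hU
      obtain ⟨N, hN⟩ := eventually_atTop.1 (hb2 hU)
      change f ⁻¹' U ∈ 𝓝 (⊤ : ℕ∞)
      refine mem_of_superset (Ioi_mem_nhds (a := (N : ℕ∞)) (ENat.coe_lt_top N)) ?_
      intro k hk
      by_cases hkt : k = ⊤
      · rw [mem_preimage, hkt, hft]
        exact mem_of_mem_nhds hU
      · lift k to ℕ using hkt
        have hk' : N < k := by
          have h2 : (N : ℕ∞) < (k : ℕ∞) := hk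
          exact_mod_cast h2
        rw [mem_preimage, hfn]
        exact hN k hk'.le
    · intro U hU
      rw [mem_map, ENat.mem_nhds_iff hm]
      exact (mem_of_mem_nhds hU : f m ∈ U)
  · intro m
    by_cases hm : m = ⊤
    · rw [hm, hft]
      exact hz
    · lift m to ℕ using hm
      rw [hfn]
      exact hb1 m

/-- The spaces with one non-isolated point. -/
theorem sp_strong {Y : Type v} {F : Filter Y}
    (h : ∀ A : ℕ → Set Y, (∀ S ∈ F, ∀ᶠ n in atTop, (A n ∩ S).Nonempty) →
      ∃ a : ℕ → Y, (∀ᶠ n in atTop, a n ∈ A n) ∧ Tendsto a atTop F) :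
    StronglySelective ℕ∞ (Sp F) := by
  classical
  refine strong_of_seq fun S z hne hS => ?_
  rcases sp_cases z with rfl | ⟨t, rfl⟩
  · by_cases hp : ∃ p : ℕ → Y, Tendsto p atTop F
    · obtain ⟨p, hp⟩ := hp
      obtain ⟨a, ha1, ha2⟩ := h (fun n => if pt F ∈ S n then {p n} else {t | inc F t ∈ S n}) (by
        intro V hV
        have h1 : {z : Sp F | z = pt F ∨ ∃ t ∈ V, z = inc F t} ∈ 𝓝 (pt F) := by
          rw [nhds_pt]
          exact ⟨Or.inl rfl, mem_of_superset hV fun t ht => Or.inr ⟨t, ht, rfl⟩⟩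
        filter_upwards [hS _ h1, hp hV] with n hn hpn
        split_ifs with h2
        · exact ⟨p n, rfl, hpn⟩
        · obtain ⟨w, hw1, hw2⟩ := hn
          rcases hw2 with hw2 | ⟨t, ht, hw2⟩
          · rw [hw2] at hw1
            exact absurd hw1 h2
          · rw [hw2] at hw1
            exact ⟨t, hw1, ht⟩)
      refine ⟨fun n => if pt F ∈ S n then pt F else inc F (a n), ?_, ?_⟩
      · filter_upwards [ha1] with n hn
        split_ifs with h2
        · exact h2
        · rw [if_neg h2] at hn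
          exact hn
      · rw [tendsto_pt]
        intro V hV
        filter_upwards [ha2 hV] with n hn
        split_ifs with h2
        · exact Or.inl rfl
        · exact Or.inr ⟨a n, hn, rfl⟩
    · refine ⟨fun _ => pt F, ?_, tendsto_const_nhds⟩
      by_contra hc
      obtain ⟨ρ, hρ, hρ2⟩ := extraction_of_frequently_atTop (not_eventually.1 hc)
      obtain ⟨a, -, ha2⟩ := h (fun n => {t | inc F t ∈ S (ρ n)}) (by
        intro V hV
        have h1 : {z : Sp F | z = pt F ∨ ∃ t ∈ V, z = inc F t} ∈ 𝓝 (pt F) := by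
          rw [nhds_pt]
          exact ⟨Or.inl rfl, mem_of_superset hV fun t ht => Or.inr ⟨t, ht, rfl⟩⟩
        filter_upwards [hρ.tendsto_atTop.eventually (hS _ h1)] with n hn
        obtain ⟨w, hw1, hw2⟩ := hn
        rcases hw2 with hw2 | ⟨t, ht, hw2⟩
        · rw [hw2] at hw1
          exact absurd hw1 (hρ2 n)
        · rw [hw2] at hw1
          exact ⟨t, hw1, ht⟩)
      exact hp ⟨a, ha2⟩
  · refine ⟨fun _ => inc F t, ?_, tendsto_const_nhds⟩
    have h1 := hS {inc F t} (by rw [nhds_inc]; exact mem_pure.2 rfl)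
    filter_upwards [h1] with n hn
    obtain ⟨w, hw1, hw2⟩ := hn
    rw [mem_singleton_iff] at hw2
    rwa [hw2] at hw1

theorem fl_strong (hX : StronglySelective ℕ∞ X) : StronglySelective ℕ∞ (Sp (Fl φ x)) := by
  classical
  refine sp_strong fun A hA => ?_
  obtain ⟨z, hz1, hz2⟩ := seqsel' hX (fun n => ⋃ t ∈ A n, φ t) x (by
    intro U hU
    filter_upwards [hA {t | (φ t ∩ U).Nonempty} (mem_fl.2 ⟨U, hU, Subset.rfl⟩)] with n hn
    obtain ⟨t, ht1, y, hy1, hy2⟩ := hn
    exact ⟨y, mem_biUnion ht1 hy1, hy2⟩)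
  obtain ⟨N, hN⟩ := eventually_atTop.1 hz1
  have h1 : ∀ n, ∃ t, t ∈ A (n + N) ∧ z (n + N) ∈ φ t := by
    intro n
    have := hN (n + N) (Nat.le_add_left _ _)
    rw [mem_iUnion₂] at this
    obtain ⟨t, ht, h3⟩ := this
    exact ⟨t, ht, h3⟩
  choose t ht1 ht2 using h1
  refine ⟨fun n => t (n - N), ?_, ?_⟩
  · refine eventually_atTop.2 ⟨N, fun n hn => ?_⟩
    have := ht1 (n - N)
    rwa [Nat.sub_add_cancel hn] at this
  · intro S hS
    obtain ⟨U, hU, hUS⟩ := mem_fl.1 hS
    change ∀ᶠ n in atTop, t (n - N) ∈ S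
    filter_upwards [hz2 hU, eventually_ge_atTop N] with n hn hn2
    have := ht2 (n - N)
    rw [Nat.sub_add_cancel hn2] at this
    exact hUS ⟨z n, this, hn⟩

/-- The index filters are countably generated, second form. -/
theorem fl_cg' (hSL : CountableStrongFirstCountable) (hX : StronglySelective ℕ∞ X)
    [Countable Y] (φ : Y → Set X) (x : X) : (Fl φ x).IsCountablyGenerated := by
  set φ1 : {t : Y // x ∉ closure (φ t)} → Set X := fun t => φ t.1 with hφ1
  set F1 := Fl φ1 x with hF1
  haveI : T3Space (Sp F1) := by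
    refine sp_t3 fun t => ?_
    rw [hF1, mem_fl]
    refine ⟨(closure (φ1 t))ᶜ, isClosed_closure.isOpen_compl.mem_nhds t.2, ?_⟩
    rintro s ⟨y, hy1, hy2⟩ rfl
    exact hy2 (subset_closure hy1)
  haveI : Countable (Sp F1) := inferInstanceAs (Countable (Option _))
  have h1 : FirstCountableTopology (Sp F1) := hSL (Sp F1) (fl_strong hX)
  haveI h2 : F1.IsCountablyGenerated := sp_cg (h1.nhds_generated_countable _)
  have h3 : Fl φ x = 𝓟 {t | x ∈ closure (φ t)} ⊔ map Subtype.val F1 := by
    ext S
    rw [mem_sup, mem_principal, mem_map, hF1, mem_fl, mem_fl]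
    constructor
    · rintro ⟨U, hU, hUS⟩
      refine ⟨fun t ht => hUS ?_, U, hU, fun t ht => hUS ht⟩
      have := mem_closure_iff_nhds.1 ht U hU
      rwa [inter_comm] at this
    · rintro ⟨h4, U, hU, hUS⟩
      refine ⟨U, hU, fun t ht => ?_⟩
      by_cases h5 : x ∈ closure (φ t)
      · exact h4 h5
      · exact hUS (show (⟨t, h5⟩ : {t : Y // x ∉ closure (φ t)}) ∈ _ from ht)
  rw [h3]
  infer_instance

/-- The index filters are countably generated. -/
theorem fl_cg (hDS : CountableFrechetAlphaOneFirstCountable) (hX : StronglySelective ℕ∞ X)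
    [Countable Y] (φ : Y → Set X) (x : X) : (Fl φ x).IsCountablyGenerated := by
  set φ1 : {t : Y // x ∉ closure (φ t)} → Set X := fun t => φ t.1 with hφ1
  set F1 := Fl φ1 x with hF1
  haveI : T3Space (Sp F1) := by
    refine sp_t3 fun t => ?_
    rw [hF1, mem_fl]
    refine ⟨(closure (φ1 t))ᶜ, isClosed_closure.isOpen_compl.mem_nhds t.2, ?_⟩
    rintro s ⟨y, hy1, hy2⟩ rfl
    exact hy2 (subset_closure hy1)
  haveI : Countable (Sp F1) := inferInstanceAs (Countable (Option _))
  have h1 : FirstCountableTopology (Sp F1) :=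
    hDS (Sp F1) (fl_frechet hX) (fl_alpha hX fun t => t.2)
  haveI h2 : F1.IsCountablyGenerated := sp_cg (h1.nhds_generated_countable _)
  have h3 : Fl φ x = 𝓟 {t | x ∈ closure (φ t)} ⊔ map Subtype.val F1 := by
    ext S
    rw [mem_sup, mem_principal, mem_map, hF1, mem_fl, mem_fl]
    constructor
    · rintro ⟨U, hU, hUS⟩
      refine ⟨fun t ht => hUS ?_, U, hU, fun t ht => hUS ht⟩
      have := mem_closure_iff_nhds.1 ht U hU
      rwa [inter_comm] at this
    · rintro ⟨h4, U, hU, hUS⟩
      refine ⟨U, hU, fun t ht => ?_⟩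
      by_cases h5 : x ∈ closure (φ t)
      · exact h4 h5
      · exact hUS (show (⟨t, h5⟩ : {t : Y // x ∉ closure (φ t)}) ∈ _ from ht)
  rw [h3]
  infer_instance

end

end Pool.Agent.H58.SEL
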