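import Pool.Agent.H58.SEL.CG

/-!
# A countable set which computes the index filter
-/

open Filter Topology Set

namespace Pool.Agent.H58.SEL

universe u

/-- A well order in which countable sets are bounded, of size `ℵ₁`. -/
theorem exists_omega_one : ∃ (I : Type) (_ : LinearOrder I), WellFoundedLT I ∧
    Cardinal.mk I = Cardinal.aleph 1 ∧ Nonempty I ∧ (∀ i : I, (Iio i).Countable) ∧
    ∀ A : Set I, A.Countable → ∃ i, ∀ a ∈ A, a < i := by
  have hmk : Cardinal.mk (Cardinal.aleph 1).ord.ToType = Cardinal.aleph 1 := Cardinal.mk_ord_toType _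
  have hcount : ∀ i : (Cardinal.aleph 1).ord.ToType, (Iio i).Countable := by
    intro i
    have h1 : Cardinal.mk (Iio i) < Cardinal.aleph 1 := by
      simpa using Cardinal.mk_Iio_lt i
    exact Cardinal.countable_iff_lt_aleph_one _ |>.2 h1
  have hunc : ¬ Countable (Cardinal.aleph 1).ord.ToType := by
    intro h
    have := Cardinal.mk_le_aleph0_iff.2 h
    rw [hmk] at this
    exact absurd this (not_le.2 Cardinal.aleph0_lt_aleph_one)
  refine ⟨(Cardinal.aleph 1).ord.ToType, inferInstance, inferInstance, hmk, ?_, hcount, ?_⟩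
  · by_contra hc
    rw [not_nonempty_iff] at hc
    exact hunc inferInstance
  · intro A hA
    by_contra hc
    push Not at hc
    apply hunc
    rw [← countable_univ_iff]
    have h2 : (univ : Set (Cardinal.aleph 1).ord.ToType) ⊆ ⋃ a ∈ A, (Iio a ∪ {a}) := by
      intro i _
      obtain ⟨a, ha, h⟩ := hc i
      rw [mem_iUnion₂]
      refine ⟨a, ha, ?_⟩
      rcases h.lt_or_eq with h | h
      · exact Or.inl h
      · exact Or.inr h
    exact (hA.biUnion fun a _ => (hcount a).union (countable_singleton a)).mono h2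

variable {X : Type u} [TopologicalSpace X] {Y : Type} {x : X}

theorem step_aux (hX : StronglySelective ℕ∞ X) (φ : Y → Set X) (C : Set X)
    (h : ¬ Fl φ x ≤ Fl (fun t => φ t ∩ C) x) :
    ∃ C' : Set X, C'.Countable ∧
      ¬ Fl (fun t => φ t ∩ (C ∪ C')) x ≤ Fl (fun t => φ t ∩ C) x := by
  rw [Filter.not_le] at h
  obtain ⟨S, hS1, hS2⟩ := h
  obtain ⟨z, hz1, hz2⟩ := seqsel' hX (fun _ => ⋃ t ∈ Sᶜ, φ t) x (by
    intro U hU
    refine Eventually.of_forall fun n => ?_
    by_contra hc
    apply hS2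
    rw [mem_fl]
    refine ⟨U, hU, fun t ht => ?_⟩
    by_contra h1
    apply hc
    obtain ⟨y, hy1, hy2⟩ := ht
    exact ⟨y, mem_biUnion (show t ∈ Sᶜ from h1) hy1, hy2⟩)
  refine ⟨range z, countable_range z, fun hle => ?_⟩
  have h2 := hle hS1
  rw [mem_fl] at h2
  obtain ⟨U, hU, h3⟩ := h2
  obtain ⟨n, hn1, hn2⟩ := (hz1.and (hz2 hU)).exists
  rw [mem_iUnion₂] at hn1
  obtain ⟨t, ht, h4⟩ := hn1
  exact ht (h3 ⟨z n, ⟨h4, Or.inr (mem_range_self n)⟩, hn2⟩)

open Classical in
/-- The chain of countable sets. -/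
noncomputable def chain {I : Type} [LinearOrder I] [WellFoundedLT I] (nx : Set X → Set X) : I → Set X :=
  WellFounded.fix (wellFounded_lt (α := I)) fun i C =>
    (⋃ j : Iio i, C j.1 j.2) ∪ nx (⋃ j : Iio i, C j.1 j.2)

theorem chain_eq {I : Type} [LinearOrder I] [WellFoundedLT I] (nx : Set X → Set X) (i : I) :
    chain nx i = (⋃ j : Iio i, chain nx j.1) ∪ nx (⋃ j : Iio i, chain nx j.1) := by
  unfold chain
  rw [WellFounded.fix_eq]

theorem chain_countable {I : Type} [LinearOrder I] [WellFoundedLT I]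
    (hI : ∀ i : I, (Iio i).Countable) (nx : Set X → Set X)
    (hnx : ∀ C : Set X, C.Countable → (nx C).Countable) (i : I) : (chain nx i).Countable := by
  induction i using WellFoundedLT.induction with
  | ind i ih =>
    rw [chain_eq]
    have h1 : (⋃ j : Iio i, chain nx j.1).Countable := by
      haveI := (hI i).to_subtype
      exact countable_iUnion fun j => ih j.1 j.2
    exact h1.union (hnx _ h1)

theorem chain_mono {I : Type} [LinearOrder I] [WellFoundedLT I] (nx : Set X → Set X) {j i : I}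
    (h : j < i) : chain nx j ⊆ ⋃ j : Iio i, chain nx j.1 :=
  subset_iUnion (fun j : Iio i => chain nx j.1) ⟨j, h⟩

/-- There is a countable set which computes the index filter. -/
theorem exists_countable (hcg : ∀ ψ : Y → Set X, (Fl ψ x).IsCountablyGenerated)
    (hd : ¬ DominatingAlephOne) (hX : StronglySelective ℕ∞ X) [Countable Y] (φ : Y → Set X) :
    ∃ C : Set X, C.Countable ∧ Fl φ x ≤ Fl (fun t => φ t ∩ C) x := by
  classical
  by_contra hcon
  push Not at hcon
  have hstep : ∀ C : Set X, ∃ C' : Set X, C.Countable → C'.Countable ∧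
      ¬ Fl (fun t => φ t ∩ (C ∪ C')) x ≤ Fl (fun t => φ t ∩ C) x := by
    intro C
    by_cases hC : C.Countable
    · obtain ⟨C', h1, h2⟩ := step_aux hX φ C (hcon C hC)
      exact ⟨C', fun _ => ⟨h1, h2⟩⟩
    · exact ⟨∅, fun h => absurd h hC⟩
  choose nx hnx using hstep
  obtain ⟨I, _, _, hI1, ⟨i0⟩, hI2, hI3⟩ := exists_omega_one
  have hcount : ∀ i : I, (chain nx i).Countable :=
    chain_countable hI2 nx fun C hC => (hnx C hC).1
  set W : Set X := ⋃ i : I, chain nx i with hW
  set G := Fl (fun t => φ t ∩ W) x with hG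
  set Fi : I → Filter Y := fun i => Fl (fun t => φ t ∩ chain nx i) x with hFi
  haveI hGc : G.IsCountablyGenerated := hcg _
  obtain ⟨V, hV⟩ := G.exists_antitone_basis
  have hsub : ∀ {j i : I}, j < i → chain nx j ⊆ chain nx i := by
    intro j i hji
    rw [chain_eq nx i]
    exact (chain_mono nx hji).trans subset_union_left
  have hFmono : ∀ {j i : I}, j < i → Fi j ≤ Fi i := fun hji =>
    fl_le fun t => inter_subset_inter_right _ (hsub hji)
  -- the filters of the chain differ from the limit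
  have hne : ∀ i, ¬ G ≤ Fi i := by
    intro i hle
    obtain ⟨k, hk⟩ := hI3 {i} (countable_singleton i)
    have hik : i < k := hk i rfl
    have hD : (⋃ j : Iio k, chain nx j.1).Countable := by
      haveI := (hI2 k).to_subtype
      exact countable_iUnion fun j => hcount j.1
    apply (hnx _ hD).2
    rw [← chain_eq]
    refine le_trans (fl_le fun t => ?_) (hle.trans (fl_le fun t => ?_))
    · exact inter_subset_inter_right _ (subset_iUnion (fun i => chain nx i) k)
    · exact inter_subset_inter_right _ (chain_mono nx hik)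
  have hS : ∀ i, ∃ S ∈ Fi i, S ∉ G := fun i => Filter.not_le.1 (hne i)
  choose S hS1 hS2 using hS
  -- sequences
  have hseq : ∀ a : ℕ → Y, Tendsto a atTop G → ∃ i, Tendsto a atTop (Fi i) := by
    intro a ha
    rw [hG, tendsto_fl] at ha
    obtain ⟨z, hz1, hz2⟩ := seqsel' hX _ x ha
    obtain ⟨N, hN⟩ := eventually_atTop.1 hz1
    have h3 : ∀ n, ∃ i : I, z (n + N) ∈ chain nx i := by
      intro n
      exact mem_iUnion.1 (hN (n + N) (Nat.le_add_left _ _)).2
    choose j hj using h3
    obtain ⟨i, hi⟩ := hI3 (range j) (countable_range j)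
    refine ⟨i, ?_⟩
    rw [hFi]
    simp only
    rw [tendsto_fl]
    intro U hU
    filter_upwards [hz1, hz2 hU, eventually_ge_atTop N] with n hn1 hn2 hn3
    refine ⟨z n, ⟨hn1.1, ?_⟩, hn2⟩
    have h4 := hj (n - N)
    rw [Nat.sub_add_cancel hn3] at h4
    exact hsub (hi _ (mem_range_self _)) h4
  obtain ⟨e, he⟩ := exists_injective_nat Y
  -- the minimal elements outside `S i`
  have hex : ∀ i n, ∃ y, y ∈ V n ∧ y ∉ S i := by
    intro i n
    by_contra hc
    push Not at hc
    exact hS2 i (mem_of_superset (hV.1.mem_of_mem trivial) hc)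
  choose y hy1 hy2 using hex
  apply hd
  refine ⟨I, fun i n => e (y i n), hI1.le, fun g => ?_⟩
  -- the set of the small elements
  set B : Set Y := {t | ∃ n, t ∈ V n ∧ e t ≤ g n} with hB
  have hBfin : ∀ k, {t | t ∈ B ∧ t ∉ V k}.Finite := by
    intro k
    refine Finite.of_finite_image (f := e) ?_ he.injOn
    refine (finite_le_nat ((Finset.range k).sup g)).subset ?_
    rintro _ ⟨t, ⟨⟨n, hn1, hn2⟩, ht⟩, rfl⟩
    have hnk : n < k := by
      by_contra hc
      push Not at hc
      exact ht (hV.2 hc hn1)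
    exact hn2.trans (Finset.le_sup (f := g) (Finset.mem_range.2 hnk))
  have hBi : ∃ i, ∀ j, i < j → {t | t ∈ B ∧ t ∉ S j}.Finite := by
    by_cases hBf : B.Finite
    · exact ⟨i0, fun j _ => hBf.subset fun t ht => ht.1⟩
    · haveI : Infinite B := (show B.Infinite from hBf).to_subtype
      obtain ⟨β⟩ : Nonempty (ℕ ≃ B) := nonempty_equiv_of_countable
      have hb1 : Tendsto (fun n => (β n).1) atTop G := by
        rw [hV.1.tendsto_right_iff]
        intro n _
        have h1 : {k : ℕ | (β k).1 ∉ V n}.Finite := by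
          refine Finite.of_finite_image (f := fun k => (β k).1) ?_
            (fun k _ k' _ hkk => β.injective (Subtype.ext hkk))
          refine (hBfin n).subset ?_
          rintro _ ⟨k, hk, rfl⟩
          exact ⟨(β k).2, hk⟩
        have h2 := h1.eventually_cofinite_notMem
        rw [Nat.cofinite_eq_atTop] at h2
        filter_upwards [h2] with k hk
        by_contra hc
        exact hk hc
      obtain ⟨i, hi⟩ := hseq _ hb1
      refine ⟨i, fun j hj => ?_⟩
      have h1 : ∀ᶠ n in atTop, (β n).1 ∈ S j := hi (hFmono hj (hS1 j))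
      obtain ⟨N, hN⟩ := eventually_atTop.1 h1
      refine ((finite_lt_nat N).image fun k => (β k).1).subset ?_
      rintro t ⟨ht1, ht2⟩
      refine ⟨β.symm ⟨t, ht1⟩, ?_, by simp only [Equiv.apply_symm_apply]⟩
      change β.symm ⟨t, ht1⟩ < N
      by_contra hc
      push Not at hc
      have := hN _ hc
      rw [Equiv.apply_symm_apply] at this
      exact ht2 this
  obtain ⟨i1, hi1⟩ := hBi
  have hcst : ∀ t : {t : Y // ∀ n, t ∈ V n}, ∃ i, ∀ j, i < j → t.1 ∈ S j := by
    intro t
    have h1 : Tendsto (fun _ : ℕ => t.1) atTop G := by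
      rw [hV.1.tendsto_right_iff]
      intro n _
      exact Eventually.of_forall fun _ => t.2 n
    obtain ⟨i, hi⟩ := hseq _ h1
    refine ⟨i, fun j hj => ?_⟩
    have h2 : ∀ᶠ n : ℕ in atTop, t.1 ∈ S j := hi (hFmono hj (hS1 j))
    exact h2.exists.choose_spec
  choose ic hic using hcst
  obtain ⟨j, hj⟩ := hI3 (insert i1 (range ic)) ((countable_range ic).insert i1)
  refine ⟨j, ?_⟩
  by_contra hc
  have hfr : ∃ᶠ n in atTop, e (y j n) < g n := by
    refine (not_eventually.1 hc).mono fun n hn => ?_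
    exact not_le.1 hn
  have hfin := hi1 j (hj i1 (mem_insert _ _))
  have hfr2 : ∃ᶠ n in atTop, y j n ∈ hfin.toFinset := by
    refine hfr.mono fun n hn => ?_
    rw [Finite.mem_toFinset]
    exact ⟨⟨n, hy1 j n, hn.le⟩, hy2 j n⟩
  have hfr3 : ∃ t ∈ hfin.toFinset, ∃ᶠ n in atTop, y j n = t := by
    by_contra hc2
    push Not at hc2
    have h5 : ∀ᶠ n in atTop, ∀ t ∈ hfin.toFinset, ¬ y j n = t := by
      rw [Finset.eventually_all]
      intro t ht
      exact hc2 t ht
    obtain ⟨n, hn1, hn2⟩ := (hfr2.and_eventually h5).exists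
    exact hn2 _ hn1 rfl
  obtain ⟨t, -, ht⟩ := hfr3
  have htV : ∀ n, t ∈ V n := by
    intro n
    obtain ⟨m, hm, hmt⟩ := (frequently_atTop.1 ht) n
    rw [← hmt]
    exact hV.2 hm (hy1 j m)
  have htS : t ∈ S j := hic ⟨t, htV⟩ j (hj _ (mem_insert_of_mem _ (mem_range_self _)))
  obtain ⟨m, -, hmt⟩ := (frequently_atTop.1 ht) 0
  rw [← hmt] at htS
  exact hy2 j m htS

end Pool.Agent.H58.SEL
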