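import Mathlib

/-!
# Selective spaces: definitions
-/

open Filter Topology Set

namespace Pool.Agent.H58.SEL

universe u v

/-- Lower semicontinuous set-valued maps: `{y | φ y ∩ U ≠ ∅}` is open for every open `U`. -/
def LSC {Y : Type u} {X : Type v} [TopologicalSpace Y] [TopologicalSpace X] (φ : Y → Set X) :
    Prop := ∀ U : Set X, IsOpen U → IsOpen {y | (φ y ∩ U).Nonempty}

/-- `X` is `Y`-selective: every l.s.c. map from `Y` to the nonempty closed subsets of `X` has a
continuous selection. -/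
def Selective (Y : Type u) (X : Type v) [TopologicalSpace Y] [TopologicalSpace X] : Prop :=
  ∀ φ : Y → Set X, LSC φ → (∀ y, (φ y).Nonempty) → (∀ y, IsClosed (φ y)) →
    ∃ f : Y → X, Continuous f ∧ ∀ y, f y ∈ φ y

/-- `X` is strongly `Y`-selective: every l.s.c. map from `Y` to the nonempty subsets of `X` has a
continuous selection. -/
def StronglySelective (Y : Type u) (X : Type v) [TopologicalSpace Y] [TopologicalSpace X] : Prop :=
  ∀ φ : Y → Set X, LSC φ → (∀ y, (φ y).Nonempty) → ∃ f : Y → X, Continuous f ∧ ∀ y, f y ∈ φ y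

/-- Arhangel'skii's property `α₁`: for countably many sequences converging to the same point there
is a sequence converging to this point which contains almost all points of each of them. -/
def AlphaOne (Z : Type) [TopologicalSpace Z] : Prop :=
  ∀ (z : Z) (s : ℕ → ℕ → Z), (∀ k, Tendsto (s k) atTop (𝓝 z)) →
    ∃ t : ℕ → Z, Tendsto t atTop (𝓝 z) ∧ ∀ k, (range (s k) \ range t).Finite

/-- Every countable (regular) Frechet space with property `α₁` is first countable. -/
def CountableFrechetAlphaOneFirstCountable : Prop :=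
  ∀ (Z : Type) [TopologicalSpace Z] [T3Space Z] [Countable Z],
    FrechetUrysohnSpace Z → AlphaOne Z → FirstCountableTopology Z

/-- Every countable (regular) strongly `L`-selective space is first countable. -/
def CountableStrongFirstCountable : Prop :=
  ∀ (Z : Type) [TopologicalSpace Z] [T3Space Z] [Countable Z],
    StronglySelective ℕ∞ Z → FirstCountableTopology Z

/-- `𝔡 ≤ ℵ₁`: there are `ℵ₁` functions such that every function is dominated, modulo a finite
set, by one of them. -/
def DominatingAlephOne : Prop :=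
  ∃ (A : Type) (f : A → ℕ → ℕ), Cardinal.mk A ≤ Cardinal.aleph 1 ∧
    ∀ g : ℕ → ℕ, ∃ a, ∀ᶠ n in atTop, g n ≤ f a n

/-- The filter of the sets of indices `t` which contain all `t` with `φ t ∩ U ≠ ∅`, for some
neighbourhood `U` of `x`. -/
def Fl {X : Type u} [TopologicalSpace X] {Y : Type v} (φ : Y → Set X) (x : X) : Filter Y :=
  (𝓝 x).lift' (fun U => {t | (φ t ∩ U).Nonempty})

section

variable {X : Type u} [TopologicalSpace X] {Y : Type v} {φ ψ : Y → Set X} {x : X}

theorem fl_mono_aux : Monotone (fun U : Set X => {t | (φ t ∩ U).Nonempty}) :=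
  fun _ _ h _ ht => ht.mono (inter_subset_inter_right _ h)

theorem mem_fl {S : Set Y} : S ∈ Fl φ x ↔ ∃ U ∈ 𝓝 x, {t | (φ t ∩ U).Nonempty} ⊆ S :=
  mem_lift'_sets fl_mono_aux

theorem tendsto_fl {α : Type*} {l : Filter α} {a : α → Y} :
    Tendsto a l (Fl φ x) ↔ ∀ U ∈ 𝓝 x, ∀ᶠ n in l, (φ (a n) ∩ U).Nonempty := by
  unfold Fl
  rw [tendsto_lift']
  rfl

theorem fl_le (h : ∀ t, φ t ⊆ ψ t) : Fl φ x ≤ Fl ψ x := by
  intro S hS
  rw [mem_fl] at hS ⊢
  obtain ⟨U, hU, h1⟩ := hS
  exact ⟨U, hU, fun t ht => h1 (ht.mono (inter_subset_inter_left _ (h t)))⟩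

theorem seqsel (hX : StronglySelective ℕ∞ X) (S : ℕ → Set X)
    (hne : ∀ n, (S n).Nonempty) (x : X) (h : ∀ U ∈ 𝓝 x, ∀ᶠ n in atTop, (S n ∩ U).Nonempty) :
    ∃ z : ℕ → X, (∀ n, z n ∈ S n) ∧ Tendsto z atTop (𝓝 x) := by
  classical
  set φ : ℕ∞ → Set X := fun m => if m = ⊤ then {x} else S m.toNat with hφ
  have ht : φ ⊤ = {x} := if_pos rfl
  have hn : ∀ n : ℕ, φ n = S n := fun n => by
    rw [hφ]
    simp only [ENat.coe_ne_top, if_false, ENat.toNat_coe]
  have hlsc : LSC φ := by
    intro U hU
    rw [isOpen_iff_mem_nhds]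
    intro m hm
    by_cases hmt : m = ⊤
    · subst hmt
      have hxU : x ∈ U := by
        obtain ⟨y, hy1, hy2⟩ := hm
        rw [ht, mem_singleton_iff] at hy1
        rwa [hy1] at hy2
      obtain ⟨N, hN⟩ := eventually_atTop.1 (h U (hU.mem_nhds hxU))
      refine mem_of_superset (Ioi_mem_nhds (a := (N : ℕ∞)) (ENat.coe_lt_top N)) ?_
      intro k hk
      by_cases hkt : k = ⊤
      · rw [hkt]
        exact hm
      · lift k to ℕ using hkt
        have hk' : N < k := by
          have h2 : (N : ℕ∞) < (k : ℕ∞) := hk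
          exact_mod_cast h2
        change (φ k ∩ U).Nonempty
        rw [hn]
        exact hN k hk'.le
    · rw [ENat.mem_nhds_iff hmt]
      exact hm
  have hne' : ∀ m, (φ m).Nonempty := by
    intro m
    by_cases hmt : m = ⊤
    · rw [hmt, ht]
      exact singleton_nonempty x
    · lift m to ℕ using hmt
      rw [hn]
      exact hne m
  obtain ⟨f, hf, hf2⟩ := hX φ hlsc hne'
  refine ⟨fun n => f n, fun n => hf2 n, ?_⟩
  have h1 : f ⊤ = x := by
    have := hf2 ⊤
    rwa [ht, mem_singleton_iff] at this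
  rw [← h1]
  exact (hf.tendsto ⊤).comp ENat.tendsto_natCast_nhds_top

end

end Pool.Agent.H58.SEL
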