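import Pool.Agent.H58.SEL.Defs

/-!
# The rationals contain a metric fan
-/

open Filter Topology Set

namespace Pool.Agent.H58.SEL

/-- the first index of a rational -/
noncomputable def fa (q : ℚ) : ℝ := √2 / |(q : ℝ)|

/-- the second index of a rational -/
noncomputable def fb (q : ℚ) : ℝ := 1 / (fa q - ⌊fa q⌋₊)

theorem irr_floor {x : ℝ} (hx : Irrational x) (h0 : 0 < x) : (⌊x⌋₊ : ℝ) < x ∧ x < ⌊x⌋₊ + 1 := by
  refine ⟨lt_of_le_of_ne (Nat.floor_le h0.le) fun h => ?_, Nat.lt_floor_add_one x⟩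
  exact hx ⟨(⌊x⌋₊ : ℚ), by push_cast; exact h⟩

theorem floor_const {h : ℚ → ℝ} {q : ℚ} (hc : ContinuousAt h q) (hi : Irrational (h q))
    (h0 : 0 < h q) : ∀ᶠ q' in 𝓝 q, ⌊h q'⌋₊ = ⌊h q⌋₊ := by
  obtain ⟨h1, h2⟩ := irr_floor hi h0
  filter_upwards [hc (Ioo_mem_nhds h1 h2)] with q' hq'
  rw [Nat.floor_eq_iff (le_trans (Nat.cast_nonneg _) (le_of_lt hq'.1))]
  exact ⟨le_of_lt hq'.1, hq'.2⟩

theorem fa_pos {q : ℚ} (hq : q ≠ 0) : 0 < fa q := by
  have : (q : ℝ) ≠ 0 := by exact_mod_cast hq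
  unfold fa
  positivity

theorem fa_irr {q : ℚ} (hq : q ≠ 0) : Irrational (fa q) := by
  unfold fa
  have h1 : |(q : ℝ)| = ((|q| : ℚ) : ℝ) := by push_cast; rfl
  rw [h1]
  exact irrational_sqrt_two.div_ratCast (abs_ne_zero.2 hq)

theorem fb_pos {q : ℚ} (hq : q ≠ 0) : 0 < fb q := by
  unfold fb
  have := (irr_floor (fa_irr hq) (fa_pos hq)).1
  have h2 : 0 < fa q - ⌊fa q⌋₊ := by linarith
  positivity

theorem fb_irr {q : ℚ} (hq : q ≠ 0) : Irrational (fb q) := by
  unfold fb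
  rw [one_div, irrational_inv_iff]
  exact (fa_irr hq).sub_natCast _

theorem fa_cont {q : ℚ} (hq : q ≠ 0) : ContinuousAt fa q := by
  unfold fa
  have h1 : ContinuousAt (fun q : ℚ => |(q : ℝ)|) q :=
    (continuous_abs.comp Rat.continuous_coe_real).continuousAt
  refine continuousAt_const.div h1 ?_
  rw [abs_ne_zero]
  exact_mod_cast hq

theorem fb_cont {q : ℚ} (hq : q ≠ 0) : ContinuousAt fb q := by
  have h1 := floor_const (fa_cont hq) (fa_irr hq) (fa_pos hq)
  have h2 : ContinuousAt (fun q' => 1 / (fa q' - ⌊fa q⌋₊)) q := by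
    refine continuousAt_const.div ((fa_cont hq).sub continuousAt_const) ?_
    have := (irr_floor (fa_irr hq) (fa_pos hq)).1
    linarith
  refine h2.congr ?_
  filter_upwards [h1] with q' hq'
  unfold fb
  rw [hq']

/-- A metric fan in the rationals. -/
theorem exists_fan : ∃ (ι : ℚ → ℕ × ℕ) (p : ℕ → ℕ → ℚ),
    (∀ q ≠ 0, ∀ᶠ q' in 𝓝 q, ι q' = ι q) ∧
    (∀ n, ∀ᶠ q in 𝓝 (0 : ℚ), q ≠ 0 → n ≤ (ι q).1) ∧
    (∀ n m, p n m ≠ 0 ∧ ι (p n m) = (n, m)) ∧
    (∀ U ∈ 𝓝 (0 : ℚ), ∃ N, ∀ n ≥ N, ∀ m, p n m ∈ U) := by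
  have hs : (0 : ℝ) < √2 := by positivity
  have hp : ∀ n m : ℕ, ∃ p : ℚ, √2 / (n + 1 / (m + 1)) < p ∧ (p : ℝ) < √2 / (n + 1 / (m + 2)) := by
    intro n m
    refine exists_rat_btwn ?_
    refine div_lt_div_of_pos_left hs (by positivity) ?_
    have : (1 : ℝ) / (m + 2) < 1 / (m + 1) := by
      refine div_lt_div_of_pos_left one_pos (by positivity) ?_
      linarith
    linarith
  choose p hp1 hp2 using hp
  have hp0 : ∀ n m, (0 : ℝ) < p n m := fun n m => lt_trans (by positivity) (hp1 n m)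
  refine ⟨fun q => (⌊fa q⌋₊, ⌊fb q⌋₊ - 1), p, ?_, ?_, ?_, ?_⟩
  · intro q hq
    filter_upwards [floor_const (fa_cont hq) (fa_irr hq) (fa_pos hq),
      floor_const (fb_cont hq) (fb_irr hq) (fb_pos hq)] with q' h1 h2
    rw [h1, h2]
  · intro n
    have h1 : Ioo (-(√2 / (n + 1)) : ℝ) (√2 / (n + 1)) ∈ 𝓝 ((0 : ℚ) : ℝ) := by
      rw [Rat.cast_zero]
      exact Ioo_mem_nhds (by rw [neg_lt_zero]; positivity) (by positivity)
    have h2 := Rat.continuous_coe_real.continuousAt (x := (0 : ℚ)) h1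
    filter_upwards [h2] with q hq hq0
    change n ≤ ⌊fa q⌋₊
    apply Nat.le_floor
    unfold fa
    have hq1 : (0 : ℝ) < |(q : ℝ)| := by
      rw [abs_pos]
      exact_mod_cast hq0
    rw [le_div_iff₀ hq1]
    have h3 : |(q : ℝ)| < √2 / (n + 1) := abs_lt.2 hq
    rw [lt_div_iff₀ (by positivity)] at h3
    nlinarith
  · intro n m
    have h0 : p n m ≠ 0 := by
      intro h
      have := hp0 n m
      rw [h] at this
      simp at this
    have hfa : fa (p n m) = √2 / p n m := by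
      unfold fa
      rw [abs_of_pos (hp0 n m)]
    have h1 : (n : ℝ) + 1 / (m + 2) < fa (p n m) := by
      rw [hfa, lt_div_iff₀ (hp0 n m)]
      have := hp2 n m
      rw [lt_div_iff₀ (by positivity)] at this
      linarith
    have h2 : fa (p n m) < (n : ℝ) + 1 / (m + 1) := by
      rw [hfa, div_lt_iff₀ (hp0 n m)]
      have := hp1 n m
      rw [div_lt_iff₀ (by positivity)] at this
      linarith
    have hm1 : (1 : ℝ) / (m + 1) ≤ 1 := by
      rw [div_le_one (by positivity)]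
      linarith [(Nat.cast_nonneg m : (0 : ℝ) ≤ m)]
    have hm2 : (0 : ℝ) < 1 / (m + 2) := by positivity
    have h3 : ⌊fa (p n m)⌋₊ = n := by
      rw [Nat.floor_eq_iff (fa_pos h0).le]
      constructor <;> linarith
    have h4 : ⌊fb (p n m)⌋₊ = m + 1 := by
      rw [Nat.floor_eq_iff (fb_pos h0).le]
      unfold fb
      rw [h3]
      have h5 : 0 < fa (p n m) - n := by linarith
      push_cast
      constructor
      · rw [le_div_iff₀ h5]
        have h6 : (m + 1 : ℝ) * (fa (p n m) - n) < (m + 1) * (1 / (m + 1)) :=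
          mul_lt_mul_of_pos_left (by linarith) (by positivity)
        rw [mul_one_div_cancel (by positivity)] at h6
        exact h6.le
      · rw [div_lt_iff₀ h5]
        have h6 : (m + 2 : ℝ) * (1 / (m + 2)) < (m + 2) * (fa (p n m) - n) :=
          mul_lt_mul_of_pos_left (by linarith) (by positivity)
        rw [mul_one_div_cancel (by positivity)] at h6
        linarith
    refine ⟨h0, ?_⟩
    change (⌊fa (p n m)⌋₊, ⌊fb (p n m)⌋₊ - 1) = (n, m)
    rw [h3, h4]
    rfl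
  · intro U hU
    obtain ⟨ε, hε, hεU⟩ := Metric.mem_nhds_iff.1 hU
    obtain ⟨N, hN⟩ := exists_nat_gt (√2 / ε)
    refine ⟨N, fun n hn m => hεU ?_⟩
    rw [Metric.mem_ball, Rat.dist_eq]
    push_cast
    rw [sub_zero, abs_of_pos (hp0 n m)]
    refine (hp2 n m).trans ?_
    rw [div_lt_iff₀ (by positivity)]
    rw [div_lt_iff₀ hε] at hN
    have h1 : (N : ℝ) ≤ n := by exact_mod_cast hn
    have h2 : (0 : ℝ) < 1 / (m + 2) := by positivity
    nlinarith

theorem fan_selective {X : Type*} [TopologicalSpace X] (h : Selective ℚ X) (P : ℕ → ℕ → Set X)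
    (x : X) (hx : IsClosed {x}) (hP : ∀ n m, IsClosed (P n m)) (hne : ∀ n m, (P n m).Nonempty)
    (hl : ∀ U, IsOpen U → x ∈ U → ∃ N, ∀ n ≥ N, ∀ m, (P n m ∩ U).Nonempty) :
    ∃ c : ℕ → ℕ → X, (∀ n m, c n m ∈ P n m) ∧
      ∀ U, IsOpen U → x ∈ U → ∃ N, ∀ n ≥ N, ∀ m, c n m ∈ U := by
  classical
  obtain ⟨ι, p, h1, h2, h3, h4⟩ := exists_fan
  set φ : ℚ → Set X := fun q => if q = 0 then {x} else P (ι q).1 (ι q).2 with hφ
  have hφ0 : φ 0 = {x} := if_pos rfl
  have hφ1 : ∀ q, q ≠ 0 → φ q = P (ι q).1 (ι q).2 := fun q hq => if_neg hq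
  have hlsc : LSC φ := by
    intro U hU
    rw [isOpen_iff_mem_nhds]
    intro q hq
    by_cases hq0 : q = 0
    · subst hq0
      have hxU : x ∈ U := by
        obtain ⟨y, hy1, hy2⟩ := hq
        rw [hφ0, mem_singleton_iff] at hy1
        rwa [hy1] at hy2
      obtain ⟨N, hN⟩ := hl U hU hxU
      filter_upwards [h2 N] with q' hq'
      by_cases hq'0 : q' = 0
      · rw [hq'0]
        exact hq
      · change (φ q' ∩ U).Nonempty
        rw [hφ1 q' hq'0]
        exact hN _ (hq' hq'0) _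
    · filter_upwards [h1 q hq0, isOpen_ne.mem_nhds hq0] with q' hq' hq'0
      change (φ q' ∩ U).Nonempty
      rw [hφ1 q' hq'0, hq', ← hφ1 q hq0]
      exact hq
  obtain ⟨f, hf1, hf2⟩ := h φ hlsc (by
    intro q
    by_cases hq0 : q = 0
    · rw [hq0, hφ0]
      exact singleton_nonempty x
    · rw [hφ1 q hq0]
      exact hne _ _) (by
    intro q
    by_cases hq0 : q = 0
    · rw [hq0, hφ0]
      exact hx
    · rw [hφ1 q hq0]
      exact hP _ _)
  have hf0 : f 0 = x := by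
    have := hf2 0
    rwa [hφ0, mem_singleton_iff] at this
  refine ⟨fun n m => f (p n m), fun n m => ?_, fun U hU hxU => ?_⟩
  · have := hf2 (p n m)
    rw [hφ1 _ (h3 n m).1, (h3 n m).2] at this
    exact this
  · exact h4 _ ((hU.preimage hf1).mem_nhds (by rw [mem_preimage, hf0]; exact hxU))

end Pool.Agent.H58.SEL
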