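import Pool.Agent.H58.SEL.Chain

/-!
# Selections over countable regular spaces (Michael)
-/

open Filter Topology Set

namespace Pool.Agent.H58.SEL

universe u

theorem exists_clopen {Y : Type} [TopologicalSpace Y] [T3Space Y] [Countable Y] {y : Y} {N : Set Y}
    (hN : N ∈ 𝓝 y) : ∃ W, IsClopen W ∧ y ∈ W ∧ W ⊆ N := by
  haveI : NormalSpace Y := inferInstance
  obtain ⟨O, hO1, hO2, hO3⟩ := mem_nhds_iff.1 hN
  obtain ⟨f, hf1, hf2, hf3⟩ := exists_continuous_zero_one_of_isClosed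
    (isClosed_singleton (x := y)) hO2.isClosed_compl (by
      rw [disjoint_singleton_left]
      exact fun h => h hO3)
  have hdense : Dense (range f)ᶜ := (countable_range f).dense_compl ℝ
  obtain ⟨r, hr1, hr2⟩ := hdense.exists_between (show (0 : ℝ) < 1 by norm_num)
  have e1 : {t | f t < r} = {t | f t ≤ r} := by
    ext t
    simp only [mem_setOf_eq]
    constructor
    · exact le_of_lt
    · intro h
      refine lt_of_le_of_ne h fun h2 => hr1 ⟨t, h2⟩
  refine ⟨{t | f t < r}, ⟨?_, ?_⟩, ?_, ?_⟩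
  · rw [e1]
    exact isClosed_le f.continuous continuous_const
  · exact isOpen_lt f.continuous continuous_const
  · have : f y = 0 := hf1 rfl
    change f y < r
    rw [this]
    exact hr2.1
  · intro t ht
    by_contra hc
    have h1 : f t = 1 := hf2 (fun h => hc (hO1 h))
    change f t < r at ht
    rw [h1] at ht
    linarith [hr2.2]

variable {X : Type u} [TopologicalSpace X] {Y : Type} [TopologicalSpace Y]

/-- A state of the construction: selection on `A`, constraint `G` outside. -/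
structure St (ψ : Y → Set X) where
  /-- the finite set where the selection is defined -/
  A : Finset Y
  /-- the constraints -/
  G : Y → Set X
  /-- the selection -/
  f : Y → X
  o : ∀ y ∉ A, IsOpen (G y)
  ne : ∀ y ∉ A, (ψ y ∩ G y).Nonempty
  lc : ∀ y ∉ A, ∀ᶠ t in 𝓝 y, G t = G y

/-- The property of one step. -/
structure Step (C : Set X) (ψ : Y → Set X) (s s' : St ψ) (y : Y) : Prop where
  a : s.A ⊆ s'.A
  b : y ∈ s'.A
  c : ∀ t ∈ s'.A, t ∉ s.A → t = y
  d : ∀ t ∈ s.A, s'.f t = s.f t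
  e : ∀ t ∉ s'.A, s'.G t ⊆ s.G t
  g : y ∉ s.A → s'.f y ∈ ψ y ∩ s.G y
  h : y ∉ s.A → ∀ U ∈ 𝓝 (s'.f y), ∀ᶠ t in 𝓝 y, t ∉ s'.A → s'.G t ∩ C ⊆ U

theorem exists_step [T3Space Y] [Countable Y] (C : Set X)
    (hC : ∀ x ∈ C, ∃ U : ℕ → Set X, (∀ i, IsOpen (U i) ∧ x ∈ U i) ∧
      ∀ V ∈ 𝓝 x, ∃ i, ∀ j, i ≤ j → U j ∩ C ⊆ V)
    (ψ : Y → Set X) (hψC : ∀ y, ψ y ⊆ C)
    (hlsc : ∀ y, ∀ x ∈ ψ y, ∀ U ∈ 𝓝 x, {t | (ψ t ∩ U).Nonempty} ∈ 𝓝 y) (s : St ψ) (y : Y) :
    ∃ s' : St ψ, Step C ψ s s' y := by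
  classical
  by_cases hy : y ∈ s.A
  · exact ⟨s, ⟨Subset.rfl, hy, fun t h1 h2 => absurd h1 h2, fun _ _ => rfl, fun _ _ => Subset.rfl,
      fun h => absurd hy h, fun h => absurd hy h⟩⟩
  obtain ⟨x, hx1, hx2⟩ := s.ne y hy
  obtain ⟨U, hU1, hU2⟩ := hC x (hψC y hx1)
  haveI : Nonempty Y := ⟨y⟩
  obtain ⟨e, he⟩ := exists_surjective_nat Y
  have hfinA : ∀ t : Y, ∀ B : Finset Y, t ∉ B → ∀ᶠ t' in 𝓝 t, t' ∉ B := by
    intro t B ht
    exact B.finite_toSet.isClosed.isOpen_compl.mem_nhds ht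
  have hV : ∀ i, ∃ V : Set Y, IsClopen V ∧ y ∈ V ∧
      V ⊆ {t | (ψ t ∩ (s.G y ∩ U i)).Nonempty ∧ s.G t = s.G y ∧ (t = e i → t = y)} := by
    intro i
    refine exists_clopen ?_
    have h1 : {t | (ψ t ∩ (s.G y ∩ U i)).Nonempty} ∈ 𝓝 y :=
      hlsc y x hx1 _ (((s.o y hy).inter (hU1 i).1).mem_nhds ⟨hx2, (hU1 i).2⟩)
    have h2 := s.lc y hy
    have h3 : ∀ᶠ t in 𝓝 y, t = e i → t = y := by
      by_cases h4 : e i = y
      · exact Eventually.of_forall fun t ht => ht.trans h4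
      · have h5 : {e i}ᶜ ∈ 𝓝 y := isOpen_compl_singleton.mem_nhds (fun h => h4 h.symm)
        filter_upwards [h5] with t ht h6
        exact absurd h6 ht
    filter_upwards [h1, h2, h3] with t h1 h2 h3
    exact ⟨h1, h2, h3⟩
  choose V hV1 hV2 hV3 using hV
  have hex : ∀ t, t ≠ y → ∃ i, t ∉ V i := by
    intro t ht
    obtain ⟨i, hi⟩ := he t
    refine ⟨i, fun h => ht ((hV3 i h).2.2 hi.symm)⟩
  set G' : Y → Set X := fun t => if h : ∃ i, t ∉ V i then
    (if Nat.find h = 0 then s.G t else s.G y ∩ U (Nat.find h - 1)) else s.G t with hG'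
  -- description of `G'`
  have hG0 : ∀ t, t ∉ V 0 → G' t = s.G t := by
    intro t ht
    have h : ∃ i, t ∉ V i := ⟨0, ht⟩
    have h2 : Nat.find h = 0 := (Nat.find_eq_zero h).2 ht
    rw [hG']
    simp only
    rw [dif_pos h, if_pos h2]
  have hGk : ∀ t k, (∀ j, j ≤ k → t ∈ V j) → t ∉ V (k + 1) → G' t = s.G y ∩ U k := by
    intro t k h1 h2
    have h : ∃ i, t ∉ V i := ⟨k + 1, h2⟩
    have h3 : Nat.find h = k + 1 := by
      rw [Nat.find_eq_iff]
      refine ⟨h2, fun j hj => ?_⟩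
      rw [not_not]
      exact h1 j (by omega)
    rw [hG']
    simp only
    rw [dif_pos h, if_neg (by rw [h3]; omega), h3, Nat.add_sub_cancel]
  have hcase : ∀ t, t ≠ y → t ∉ V 0 ∨ ∃ k, (∀ j, j ≤ k → t ∈ V j) ∧ t ∉ V (k + 1) := by
    intro t ht
    have h := hex t ht
    by_cases h0 : Nat.find h = 0
    · exact Or.inl ((Nat.find_eq_zero h).1 h0)
    · right
      refine ⟨Nat.find h - 1, fun j hj => ?_, ?_⟩
      · have := Nat.find_min h (m := j) (by omega)
        rwa [not_not] at this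
      · have := Nat.find_spec h
        rwa [show Nat.find h - 1 + 1 = Nat.find h by omega]
  have hne_of : ∀ t, t ∉ insert y s.A → t ≠ y ∧ t ∉ s.A := by
    intro t ht
    rw [Finset.mem_insert, not_or] at ht
    exact ht
  refine ⟨⟨insert y s.A, G', Function.update s.f y x, ?_, ?_, ?_⟩, ⟨Finset.subset_insert _ _,
    Finset.mem_insert_self _ _, ?_, ?_, ?_, ?_, ?_⟩⟩
  · intro t ht
    obtain ⟨ht1, ht2⟩ := hne_of t ht
    rcases hcase t ht1 with h | ⟨k, h1, h2⟩
    · rw [hG0 t h]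
      exact s.o t ht2
    · rw [hGk t k h1 h2]
      exact (s.o y hy).inter (hU1 k).1
  · intro t ht
    obtain ⟨ht1, ht2⟩ := hne_of t ht
    rcases hcase t ht1 with h | ⟨k, h1, h2⟩
    · rw [hG0 t h]
      exact s.ne t ht2
    · rw [hGk t k h1 h2]
      exact (hV3 k (h1 k le_rfl)).1
  · intro t ht
    obtain ⟨ht1, ht2⟩ := hne_of t ht
    rcases hcase t ht1 with h | ⟨k, h1, h2⟩
    · filter_upwards [(hV1 0).isClosed.isOpen_compl.mem_nhds h, s.lc t ht2] with t' h3 h4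
      rw [hG0 t' h3, hG0 t h, h4]
    · have h3 : ∀ᶠ t' in 𝓝 t, ∀ j ∈ Finset.range (k + 1), t' ∈ V j := by
        rw [Finset.eventually_all]
        intro j hj
        exact (hV1 j).isOpen.mem_nhds (h1 j (by rw [Finset.mem_range] at hj; omega))
      filter_upwards [h3, (hV1 (k + 1)).isClosed.isOpen_compl.mem_nhds h2] with t' h4 h5
      rw [hGk t k h1 h2, hGk t' k (fun j hj => h4 j (Finset.mem_range.2 (by omega))) h5]
  · intro t ht1 ht2
    rcases Finset.mem_insert.1 ht1 with h | h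
    · exact h
    · exact absurd h ht2
  · intro t ht
    have hty : t ≠ y := fun h => hy (h ▸ ht)
    exact Function.update_of_ne hty _ _
  · intro t ht
    obtain ⟨ht1, ht2⟩ := hne_of t ht
    rcases hcase t ht1 with h | ⟨k, h1, h2⟩
    · exact (hG0 t h).subset
    · change G' t ⊆ s.G t
      rw [hGk t k h1 h2, (hV3 k (h1 k le_rfl)).2.1]
      exact inter_subset_left
  · intro _
    simp only [Function.update_self]
    exact ⟨hx1, hx2⟩
  · intro _ U' hU'
    simp only [Function.update_self] at hU'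
    obtain ⟨i, hi⟩ := hU2 U' hU'
    have h3 : ∀ᶠ t' in 𝓝 y, ∀ j ∈ Finset.range (i + 1), t' ∈ V j := by
      rw [Finset.eventually_all]
      intro j _
      exact (hV1 j).isOpen.mem_nhds (hV2 j)
    filter_upwards [h3] with t ht1 ht2
    obtain ⟨ht3, ht4⟩ := hne_of t ht2
    rcases hcase t ht3 with h | ⟨k, h1, h2⟩
    · exact absurd (ht1 0 (Finset.mem_range.2 (by omega))) h
    · have hik : i ≤ k := by
        by_contra hc
        exact h2 (ht1 (k + 1) (Finset.mem_range.2 (by omega)))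
      change G' t ∩ C ⊆ U'
      rw [hGk t k h1 h2]
      exact (inter_subset_inter_left _ inter_subset_right).trans (hi k hik)

/-- Michael's selection theorem for countable regular domains (strong form). -/
theorem michael [T3Space Y] [Countable Y] (C : Set X)
    (hC : ∀ x ∈ C, ∃ U : ℕ → Set X, (∀ i, IsOpen (U i) ∧ x ∈ U i) ∧
      ∀ V ∈ 𝓝 x, ∃ i, ∀ j, i ≤ j → U j ∩ C ⊆ V)
    (ψ : Y → Set X) (hψC : ∀ y, ψ y ⊆ C) (hne : ∀ y, (ψ y).Nonempty)
    (hlsc : ∀ y, ∀ x ∈ ψ y, ∀ U ∈ 𝓝 x, {t | (ψ t ∩ U).Nonempty} ∈ 𝓝 y) :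
    ∃ f : Y → X, Continuous f ∧ ∀ y, f y ∈ ψ y := by
  classical
  rcases isEmpty_or_nonempty Y with hY | hY
  · exact ⟨fun y => (hY.false y).elim, continuous_of_const fun y => (hY.false y).elim,
      fun y => (hY.false y).elim⟩
  obtain ⟨e, he⟩ := exists_surjective_nat Y
  choose c hc using hne
  choose nx hnx using exists_step C hC ψ hψC hlsc
  let s0 : St ψ := ⟨∅, fun _ => univ, c, fun _ _ => isOpen_univ, fun y _ => ⟨c y, hc y, trivial⟩,
    fun _ _ => Eventually.of_forall fun _ => rfl⟩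
  let s : ℕ → St ψ := fun n => Nat.rec s0 (fun n s => nx s (e n)) n
  have hs : ∀ n, Step C ψ (s n) (s (n + 1)) (e n) := fun n => hnx (s n) (e n)
  have hAm : ∀ n m, n ≤ m → (s n).A ⊆ (s m).A := by
    intro n m h
    induction m, h using Nat.le_induction with
    | base => exact Subset.rfl
    | succ m _ ih => exact ih.trans (hs m).a
  have hGm : ∀ n m t, n ≤ m → t ∉ (s m).A → (s m).G t ⊆ (s n).G t := by
    intro n m t h ht
    induction m, h using Nat.le_induction with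
    | base => exact Subset.rfl
    | succ m _ ih =>
      have h1 : t ∉ (s m).A := fun h2 => ht ((hs m).a h2)
      exact ((hs m).e t ht).trans (ih h1)
  have hex : ∀ y, ∃ n, y ∈ (s (n + 1)).A := by
    intro y
    obtain ⟨n, hn⟩ := he y
    refine ⟨n, ?_⟩
    rw [← hn]
    exact (hs n).b
  set ν : Y → ℕ := fun y => Nat.find (hex y) with hν
  have hν1 : ∀ y, y ∈ (s (ν y + 1)).A := fun y => Nat.find_spec (hex y)
  have hν2 : ∀ y, y ∉ (s (ν y)).A := by
    intro y hy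
    by_cases h0 : ν y = 0
    · rw [h0] at hy
      exact absurd hy (Finset.notMem_empty y)
    · have h1 := Nat.find_min (hex y) (m := ν y - 1) (by
        change ν y - 1 < ν y
        omega)
      apply h1
      rwa [show ν y - 1 + 1 = ν y by omega]
  have hν3 : ∀ y, e (ν y) = y := fun y => ((hs (ν y)).c y (hν1 y) (hν2 y)).symm
  set F : Y → X := fun y => (s (ν y + 1)).f y with hF
  have hF1 : ∀ y, F y ∈ ψ y ∩ (s (ν y)).G y := by
    intro y
    have h1 := (hs (ν y)).g (by rw [hν3]; exact hν2 y)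
    rw [hν3] at h1
    exact h1
  refine ⟨F, ?_, fun y => (hF1 y).1⟩
  rw [continuous_iff_continuousAt]
  intro y U hU
  have h1 := (hs (ν y)).h (by rw [hν3]; exact hν2 y)
  rw [hν3] at h1
  have h2 := h1 U hU
  have h3 : ∀ᶠ t in 𝓝 y, t ∉ (s (ν y + 1)).A.erase y := by
    exact ((s (ν y + 1)).A.erase y).finite_toSet.isClosed.isOpen_compl.mem_nhds
      (Finset.notMem_erase y _)
  change ∀ᶠ t in 𝓝 y, F t ∈ U
  filter_upwards [h2, h3] with t ht1 ht2
  by_cases hty : t = y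
  · rw [hty]
    exact mem_of_mem_nhds hU
  · have h4 : t ∉ (s (ν y + 1)).A := fun h => ht2 (Finset.mem_erase.2 ⟨hty, h⟩)
    have h5 : ν y + 1 ≤ ν t := by
      by_contra hc
      push Not at hc
      exact h4 (hAm (ν t + 1) (ν y + 1) (by omega) (hν1 t))
    have h6 := hF1 t
    exact ht1 h4 ⟨hGm _ _ t h5 (hν2 t) h6.2, hψC t h6.1⟩

/-- The main theorem. -/
theorem main (hSL : CountableStrongFirstCountable) (hd : ¬ DominatingAlephOne)
    (hX : StronglySelective ℕ∞ X) [T3Space Y] [Countable Y] : StronglySelective Y X := by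
  intro φ hφ hne
  rcases isEmpty_or_nonempty Y with hY | hY
  · exact ⟨fun y => (hY.false y).elim, continuous_of_const fun y => (hY.false y).elim,
      fun y => (hY.false y).elim⟩
  choose c hc using hne
  have hD : ∀ x : X, ∃ D : Set X, D.Countable ∧ Fl φ x ≤ Fl (fun t => φ t ∩ D) x := fun x =>
    exists_countable (fun ψ => fl_cg' hSL hX ψ x) hd hX φ
  choose D hD1 hD2 using hD
  let Cn : ℕ → Set X := fun n => Nat.rec (range c) (fun _ A => A ∪ ⋃ x ∈ A, D x) n
  have hCn : ∀ n, Cn (n + 1) = Cn n ∪ ⋃ x ∈ Cn n, D x := fun n => rfl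
  have hCnc : ∀ n, (Cn n).Countable := by
    intro n
    induction n with
    | zero => exact countable_range c
    | succ n ih =>
      rw [hCn]
      exact ih.union (ih.biUnion fun x _ => hD1 x)
  set C : Set X := ⋃ n, Cn n with hC
  have hCc : C.Countable := countable_iUnion hCnc
  have hDC : ∀ x ∈ C, D x ⊆ C := by
    intro x hx y hy
    obtain ⟨n, hn⟩ := mem_iUnion.1 hx
    refine mem_iUnion.2 ⟨n + 1, ?_⟩
    rw [hCn]
    exact Or.inr (mem_biUnion hn hy)
  have hcC : ∀ y, c y ∈ C := fun y => mem_iUnion.2 ⟨0, mem_range_self y⟩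
  have hCne : C.Nonempty := ⟨_, hcC hY.some⟩
  obtain ⟨a, ha⟩ := hCc.exists_eq_range hCne
  have hfc : ∀ x ∈ C, ∃ U : ℕ → Set X, (∀ i, IsOpen (U i) ∧ x ∈ U i) ∧
      ∀ V ∈ 𝓝 x, ∃ i, ∀ j, i ≤ j → U j ∩ C ⊆ V := by
    intro x _
    haveI := fl_cg' hSL hX (fun n : ℕ => ({a n} : Set X)) x
    obtain ⟨S, hS⟩ := (Fl (fun n : ℕ => ({a n} : Set X)) x).exists_antitone_basis
    have h1 : ∀ i, ∃ V ∈ 𝓝 x, {n | (({a n} : Set X) ∩ V).Nonempty} ⊆ S i := fun i =>
      mem_fl.1 (hS.1.mem_of_mem trivial)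
    choose V hV1 hV2 using h1
    refine ⟨fun i => interior (V i), fun i => ⟨isOpen_interior, mem_interior_iff_mem_nhds.2 (hV1 i)⟩,
      fun V' hV' => ?_⟩
    have h2 : {n | a n ∈ V'} ∈ Fl (fun n : ℕ => ({a n} : Set X)) x := by
      rw [mem_fl]
      refine ⟨V', hV', ?_⟩
      rintro n ⟨y, hy1, hy2⟩
      rw [mem_singleton_iff] at hy1
      rwa [hy1] at hy2
    obtain ⟨i, -, hi⟩ := hS.1.mem_iff.1 h2
    refine ⟨i, fun j hj => ?_⟩
    rintro y ⟨hy1, hy2⟩
    rw [ha] at hy2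
    obtain ⟨n, rfl⟩ := hy2
    exact hi (hS.2 hj (hV2 j ⟨a n, rfl, interior_subset hy1⟩))
  obtain ⟨f, hf1, hf2⟩ := michael C hfc (fun y => φ y ∩ C) (fun y => inter_subset_right)
    (fun y => ⟨c y, hc y, hcC y⟩) (by
      rintro y x ⟨hx1, hx2⟩ U hU
      have h1 : {t | (φ t ∩ C ∩ U).Nonempty} ∈ Fl (fun t => φ t ∩ C) x :=
        mem_fl.2 ⟨U, hU, Subset.rfl⟩
      have h2 : Fl φ x ≤ Fl (fun t => φ t ∩ C) x :=
        (hD2 x).trans (fl_le fun t => inter_subset_inter_right _ (hDC x hx2))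
      obtain ⟨U', hU', h3⟩ := mem_fl.1 (h2 h1)
      have h4 : {t | (φ t ∩ interior U').Nonempty} ∈ 𝓝 y :=
        (hφ _ isOpen_interior).mem_nhds ⟨x, hx1, mem_interior_iff_mem_nhds.2 hU'⟩
      filter_upwards [h4] with t ht
      exact h3 (ht.mono (inter_subset_inter_right _ interior_subset)))
  exact ⟨f, hf1, fun y => (hf2 y).1⟩

end Pool.Agent.H58.SEL
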