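import Pool.Agent.H58.SEL.Chain
import Pool.Agent.H58.SEL.Fan

/-!
# A strongly `L`-selective space which is not selective for the rationals, if `𝔡 = ℵ₁`
-/

open Filter Topology Set

namespace Pool.Agent.H58.SEL

/-- A countable set of functions is bounded. -/
theorem exists_bound (C : Set (ℕ → ℕ)) (hC : C.Countable) :
    ∃ g : ℕ → ℕ, ∀ f ∈ C, ∀ᶠ n in atTop, f n ≤ g n := by
  rcases C.eq_empty_or_nonempty with rfl | hne
  · exact ⟨0, fun f hf => absurd hf (notMem_empty f)⟩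
  · obtain ⟨e, rfl⟩ := hC.exists_eq_range hne
    refine ⟨fun n => (Finset.range (n + 1)).sup fun i => e i n, ?_⟩
    rintro _ ⟨i, rfl⟩
    refine eventually_atTop.2 ⟨i, fun n hn => ?_⟩
    exact Finset.le_sup (f := fun i => e i n) (Finset.mem_range.2 (by omega))

section Scale

variable {I : Type} [LinearOrder I] [WellFoundedLT I]

/-- The scale. -/
noncomputable def scale (bd : Set (ℕ → ℕ) → ℕ → ℕ) (h : I → ℕ → ℕ) : I → ℕ → ℕ :=
  WellFounded.fix (wellFounded_lt (α := I)) fun i F =>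
    bd (insert (h i) (range fun j : Iio i => F j.1 j.2))

theorem scale_eq (bd : Set (ℕ → ℕ) → ℕ → ℕ) (h : I → ℕ → ℕ) (i : I) :
    scale bd h i = bd (insert (h i) (range fun j : Iio i => scale bd h j.1)) := by
  unfold scale
  rw [WellFounded.fix_eq]

end Scale

theorem exists_scale (hd : DominatingAlephOne) : ∃ (I : Type) (_ : LinearOrder I),
    WellFoundedLT I ∧ Nonempty I ∧ (∀ i : I, (Iio i).Countable) ∧
    (∀ A : Set I, A.Countable → ∃ i, ∀ a ∈ A, a < i) ∧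
    ∃ F : I → ℕ → ℕ, (∀ j i, j < i → ∀ᶠ n in atTop, F j n ≤ F i n) ∧
      ∀ g : ℕ → ℕ, ∃ i, ∀ᶠ n in atTop, g n ≤ F i n := by
  classical
  obtain ⟨A, f, hA1, hA2⟩ := hd
  obtain ⟨I, _, _, hI1, hI0, hI2, hI3⟩ := exists_omega_one
  obtain ⟨a0, -⟩ := hA2 0
  haveI : Nonempty A := ⟨a0⟩
  rw [← hI1] at hA1
  obtain ⟨j⟩ := Cardinal.le_def A I |>.1 hA1
  have hbd : ∀ C : Set (ℕ → ℕ), ∃ g : ℕ → ℕ, C.Countable → ∀ f ∈ C, ∀ᶠ n in atTop, f n ≤ g n := by
    intro C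
    by_cases hC : C.Countable
    · obtain ⟨g, hg⟩ := exists_bound C hC
      exact ⟨g, fun _ => hg⟩
    · exact ⟨0, fun h => absurd h hC⟩
  choose bd hbd using hbd
  set h : I → ℕ → ℕ := fun i => f (Function.invFun j i) with hh
  have hcount : ∀ i, (insert (h i) (range fun j : Iio i => scale bd h j.1)).Countable := by
    intro i
    haveI := (hI2 i).to_subtype
    exact (countable_range _).insert _
  refine ⟨I, inferInstance, inferInstance, hI0, hI2, hI3, scale bd h, ?_, ?_⟩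
  · intro k i hki
    rw [scale_eq bd h i]
    exact hbd _ (hcount i) _ (mem_insert_of_mem _ ⟨⟨k, hki⟩, rfl⟩)
  · intro g
    obtain ⟨a, ha⟩ := hA2 g
    refine ⟨j a, ?_⟩
    have h1 := hbd _ (hcount (j a)) _ (mem_insert _ _)
    rw [← scale_eq bd h] at h1
    have h2 : h (j a) = f a := by
      rw [hh]
      simp only
      rw [Function.leftInverse_invFun j.injective a]
    rw [h2] at h1
    filter_upwards [ha, h1] with n h3 h4
    exact h3.trans h4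

theorem diag {P : ℕ → ℕ → Prop} (h1 : ∀ r, ∀ᶠ k in atTop, P r k) :
    ∃ ρ : ℕ → ℕ, Tendsto ρ atTop atTop ∧ ∀ᶠ k in atTop, P (ρ k) k := by
  classical
  refine ⟨fun k => Nat.findGreatest (fun r => P r k) k, ?_, ?_⟩
  · rw [tendsto_atTop]
    intro r
    filter_upwards [h1 r, eventually_ge_atTop r] with k hk1 hk2
    exact Nat.le_findGreatest hk2 hk1
  · filter_upwards [h1 0] with k hk
    exact Nat.findGreatest_spec (P := fun r => P r k) (Nat.zero_le k) hk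

section Space

variable {I : Type} [LinearOrder I]

/-- The filter of the space. -/
def fil (F : I → ℕ → ℕ) : Filter (ℕ × ℕ × I) where
  sets := {S | ∃ (N : ℕ) (Δ : Finset I), ∀ t, t ∉ S → t.1 < N ∨ ∃ δ ∈ Δ, t.2.2 < δ ∧ F δ t.1 ≤ t.2.1}
  univ_sets := ⟨0, ∅, fun t ht => absurd (mem_univ t) ht⟩
  sets_of_superset := by
    rintro S T ⟨N, Δ, h⟩ hST
    exact ⟨N, Δ, fun t ht => h t fun h1 => ht (hST h1)⟩
  inter_sets := by
    classical
    rintro S T ⟨N, Δ, h⟩ ⟨N', Δ', h'⟩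
    refine ⟨max N N', Δ ∪ Δ', fun t ht => ?_⟩
    by_cases h1 : t ∈ S
    · have h2 : t ∉ T := fun h2 => ht ⟨h1, h2⟩
      rcases h' t h2 with h3 | ⟨δ, h3, h4⟩
      · exact Or.inl (lt_max_of_lt_right h3)
      · exact Or.inr ⟨δ, Finset.mem_union_right _ h3, h4⟩
    · rcases h t h1 with h3 | ⟨δ, h3, h4⟩
      · exact Or.inl (lt_max_of_lt_left h3)
      · exact Or.inr ⟨δ, Finset.mem_union_left _ h3, h4⟩

theorem mem_fil {F : I → ℕ → ℕ} {S : Set (ℕ × ℕ × I)} : S ∈ fil F ↔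
    ∃ (N : ℕ) (Δ : Finset I), ∀ t, t ∉ S → t.1 < N ∨ ∃ δ ∈ Δ, t.2.2 < δ ∧ F δ t.1 ≤ t.2.1 :=
  Iff.rfl

theorem fil_col (F : I → ℕ → ℕ) (r : ℕ) : {t : ℕ × ℕ × I | r ≤ t.1} ∈ fil F :=
  mem_fil.2 ⟨r, ∅, fun _ ht => Or.inl (not_le.1 ht)⟩

theorem fil_J (F : I → ℕ → ℕ) (δ : I) : {t : ℕ × ℕ × I | ¬ (t.2.2 < δ ∧ F δ t.1 ≤ t.2.1)} ∈ fil F :=
  mem_fil.2 ⟨0, {δ}, fun _ ht => Or.inr ⟨δ, Finset.mem_singleton_self δ, not_not.1 ht⟩⟩

theorem tendsto_fil {F : I → ℕ → ℕ} {a : ℕ → ℕ × ℕ × I}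
    (h1 : Tendsto (fun k => (a k).1) atTop atTop)
    (h2 : ∀ δ, ∀ᶠ k in atTop, (a k).2.2 < δ → (a k).2.1 < F δ (a k).1) :
    Tendsto a atTop (fil F) := by
  intro S hS
  obtain ⟨N, Δ, h⟩ := mem_fil.1 hS
  have h3 : ∀ᶠ k in atTop, ∀ δ ∈ Δ, (a k).2.2 < δ → (a k).2.1 < F δ (a k).1 := by
    rw [Finset.eventually_all]
    exact fun δ _ => h2 δ
  change ∀ᶠ k in atTop, a k ∈ S
  filter_upwards [h3, h1.eventually_ge_atTop N] with k hk1 hk2
  by_contra hc
  rcases h _ hc with h4 | ⟨δ, h5, h6, h7⟩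
  · omega
  · exact absurd (hk1 δ h5 h6) (not_lt.2 h7)

end Space

/-- The filter has the strong selection property. -/
theorem fil_strong {I : Type} [LinearOrder I] [Nonempty I] (hI2 : ∀ i : I, (Iio i).Countable)
    (hI3 : ∀ A : Set I, A.Countable → ∃ i, ∀ a ∈ A, a < i) (F : I → ℕ → ℕ)
    (hF1 : ∀ j i, j < i → ∀ᶠ n in atTop, F j n ≤ F i n)
    (hF2 : ∀ g : ℕ → ℕ, ∃ i, ∀ᶠ n in atTop, g n ≤ F i n)
    (A : ℕ → Set (ℕ × ℕ × I)) (hA : ∀ S ∈ fil F, ∀ᶠ n in atTop, (A n ∩ S).Nonempty) :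
    ∃ a : ℕ → ℕ × ℕ × I, (∀ᶠ n in atTop, a n ∈ A n) ∧ Tendsto a atTop (fil F) := by
  classical
  -- a bound for the countable fibres
  have hb : ∀ k n m : ℕ, ∃ δ : I, {γ | (n, m, γ) ∈ A k}.Countable → ∀ γ, (n, m, γ) ∈ A k → γ < δ := by
    intro k n m
    by_cases hc : {γ | (n, m, γ) ∈ A k}.Countable
    · obtain ⟨i, hi⟩ := hI3 _ hc
      exact ⟨i, fun _ γ hγ => hi γ hγ⟩
    · exact ⟨Classical.arbitrary I, fun h => absurd h hc⟩
  choose bdd hbdd using hb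
  obtain ⟨δs, hδs⟩ := hI3 (range fun x : ℕ × ℕ × ℕ => bdd x.1 x.2.1 x.2.2) (countable_range _)
  have hfib : ∀ k n m γ, (n, m, γ) ∈ A k → ¬ γ < δs → ¬ {γ | (n, m, γ) ∈ A k}.Countable := by
    intro k n m γ h1 h2 h3
    exact h2 ((hbdd k n m h3 γ h1).trans (hδs _ ⟨(k, n, m), rfl⟩))
  -- enumeration of the initial segment
  have hseg : (insert δs (Iio δs)).Countable := (hI2 δs).insert _
  obtain ⟨e, he⟩ := hseg.exists_eq_range ⟨δs, mem_insert _ _⟩
  -- the diagonal choice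
  have hev : ∀ r, ∀ᶠ k in atTop, (A k ∩ {t | r ≤ t.1 ∧ ∀ i < r,
      ¬ (t.2.2 < e i ∧ F (e i) t.1 ≤ t.2.1)}).Nonempty := by
    intro r
    apply hA
    refine inter_mem (fil_col F r) ?_
    have : ∀ i : ℕ, i ∈ Finset.range r → {t : ℕ × ℕ × I | ¬ (t.2.2 < e i ∧ F (e i) t.1 ≤ t.2.1)} ∈
        fil F := fun i _ => fil_J F (e i)
    have h2 := (Filter.biInter_finset_mem (Finset.range r)).2 this
    refine mem_of_superset h2 fun t ht i hi => ?_
    rw [mem_iInter₂] at ht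
    exact ht i (Finset.mem_range.2 hi)
  obtain ⟨ρ, hρ1, hρ2⟩ := diag hev
  have hch : ∀ k, ∃ t : ℕ × ℕ × I, (A k ∩ {t | ρ k ≤ t.1 ∧ ∀ i < ρ k,
      ¬ (t.2.2 < e i ∧ F (e i) t.1 ≤ t.2.1)}).Nonempty → t ∈ A k ∧ ρ k ≤ t.1 ∧ ∀ i < ρ k,
      ¬ (t.2.2 < e i ∧ F (e i) t.1 ≤ t.2.1) := by
    intro k
    by_cases h : (A k ∩ {t | ρ k ≤ t.1 ∧ ∀ i < ρ k,
      ¬ (t.2.2 < e i ∧ F (e i) t.1 ≤ t.2.1)}).Nonempty
    · obtain ⟨t, ht⟩ := h
      exact ⟨t, fun _ => ⟨ht.1, ht.2.1, ht.2.2⟩⟩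
    · exact ⟨(0, 0, Classical.arbitrary I), fun h2 => absurd h2 h⟩
  choose b hb using hch
  obtain ⟨k0, hk0⟩ := eventually_atTop.1 hρ2
  have hb' : ∀ k, k0 ≤ k → b k ∈ A k ∧ ρ k ≤ (b k).1 ∧ ∀ i < ρ k,
      ¬ ((b k).2.2 < e i ∧ F (e i) (b k).1 ≤ (b k).2.1) := fun k hk => hb k (hk0 k hk)
  have hn : Tendsto (fun k => (b k).1) atTop atTop := by
    refine tendsto_atTop_mono' _ ?_ hρ1
    exact eventually_atTop.2 ⟨k0, fun k hk => (hb' k hk).2.1⟩
  -- the function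
  have hg : ∀ n, ∃ g, ∀ k, (b k).1 = n → (b k).2.1 < g := by
    intro n
    obtain ⟨K, hK⟩ := eventually_atTop.1 (hn.eventually_gt_atTop n)
    refine ⟨(Finset.range K).sup (fun k => (b k).2.1) + 1, fun k hk => ?_⟩
    have hkK : k < K := by
      by_contra hc
      push Not at hc
      have := hK k hc
      omega
    exact Nat.lt_succ_of_le (Finset.le_sup (f := fun k => (b k).2.1) (Finset.mem_range.2 hkK))
  choose g hg using hg
  obtain ⟨β, hβ⟩ := hF2 g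
  have hc2 : ∀ k, ∃ γ : I, k0 ≤ k → ¬ (b k).2.2 < δs →
      ((b k).1, (b k).2.1, γ) ∈ A k ∧ ¬ γ < β := by
    intro k
    by_cases h : k0 ≤ k ∧ ¬ (b k).2.2 < δs
    · have h1 := hfib k (b k).1 (b k).2.1 (b k).2.2 (hb' k h.1).1 h.2
      have h2 : ∃ γ, ((b k).1, (b k).2.1, γ) ∈ A k ∧ ¬ γ < β := by
        by_contra hc
        push Not at hc
        exact h1 ((hI2 β).mono fun γ hγ => hc γ hγ)
      obtain ⟨γ, hγ⟩ := h2
      exact ⟨γ, fun _ _ => hγ⟩
    · exact ⟨β, fun h1 h2 => absurd ⟨h1, h2⟩ h⟩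
  choose γ hγ using hc2
  set a : ℕ → ℕ × ℕ × I := fun k => ((b k).1, (b k).2.1, if (b k).2.2 < δs then (b k).2.2 else γ k)
    with ha
  have ha1 : ∀ k, (a k).1 = (b k).1 := fun _ => rfl
  have ha2 : ∀ k, (a k).2.1 = (b k).2.1 := fun _ => rfl
  have ha3 : ∀ k, (b k).2.2 < δs → (a k).2.2 = (b k).2.2 := fun k hk => if_pos hk
  have ha4 : ∀ k, ¬ (b k).2.2 < δs → (a k).2.2 = γ k := fun k hk => if_neg hk
  refine ⟨a, ?_, tendsto_fil hn fun δ => ?_⟩
  · refine eventually_atTop.2 ⟨k0, fun k hk => ?_⟩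
    by_cases h : (b k).2.2 < δs
    · have : a k = b k := Prod.ext rfl (Prod.ext rfl (ha3 k h))
      rw [this]
      exact (hb' k hk).1
    · have : a k = ((b k).1, (b k).2.1, γ k) := Prod.ext rfl (Prod.ext rfl (ha4 k h))
      rw [this]
      exact (hγ k hk h).1
  · -- the points of the first kind
    have hk1 : ∀ᶠ k in atTop, (b k).2.2 < δs → (b k).2.2 < δ → (b k).2.1 < F δ (b k).1 := by
      rcases le_or_gt δ δs with hle | hlt
      · have hmem : δ ∈ insert δs (Iio δs) := by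
          rcases hle.lt_or_eq with h | h
          · exact Or.inr h
          · exact Or.inl h
        rw [he] at hmem
        obtain ⟨i, hi⟩ := hmem
        filter_upwards [hρ1.eventually_gt_atTop i, eventually_ge_atTop k0] with k hk1 hk2 _ h3
        have := (hb' k hk2).2.2 i hk1
        rw [hi] at this
        by_contra hc
        push Not at hc
        exact this ⟨h3, hc⟩
      · have hmem : δs ∈ insert δs (Iio δs) := mem_insert _ _
        rw [he] at hmem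
        obtain ⟨i, hi⟩ := hmem
        filter_upwards [hρ1.eventually_gt_atTop i, eventually_ge_atTop k0,
          hn.eventually (hF1 δs δ hlt)] with k hk1 hk2 hk3 h2 _
        have := (hb' k hk2).2.2 i hk1
        rw [hi] at this
        refine lt_of_lt_of_le ?_ hk3
        by_contra hc
        push Not at hc
        exact this ⟨h2, hc⟩
    have hk2 : ∀ᶠ k in atTop, ¬ (b k).2.2 < δs → γ k < δ → (b k).2.1 < F δ (b k).1 := by
      by_cases hβδ : β < δ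
      · filter_upwards [hn.eventually hβ, hn.eventually (hF1 β δ hβδ)] with k h1 h2 _ _
        exact lt_of_lt_of_le (hg _ k rfl) (h1.trans h2)
      · filter_upwards [eventually_ge_atTop k0] with k h1 h2 h3
        exfalso
        exact (hγ k h1 h2).2 (lt_of_lt_of_le h3 (not_lt.1 hβδ))
    filter_upwards [hk1, hk2] with k h1 h2 h3
    rw [ha1, ha2]
    by_cases h : (b k).2.2 < δs
    · rw [ha3 k h] at h3
      exact h1 h h3
    · rw [ha4 k h] at h3
      exact h2 h h3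

/-- If `𝔡 = ℵ₁` there is a strongly `L`-selective space which is not selective for the rationals. -/
theorem exists_small (hd : DominatingAlephOne) : ∃ (X : Type) (_ : TopologicalSpace X),
    T3Space X ∧ StronglySelective ℕ∞ X ∧ ¬ Selective ℚ X := by
  classical
  obtain ⟨I, _, _, hI0, hI2, hI3, F, hF1, hF2⟩ := exists_scale hd
  have hne : ∀ t : ℕ × ℕ × I, {s | s ≠ t} ∈ fil F := by
    intro t
    refine mem_of_superset (fil_col F (t.1 + 1)) ?_
    rintro s hs rfl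
    have : s.1 + 1 ≤ s.1 := hs
    omega
  haveI h3 : T3Space (Sp (fil F)) := sp_t3 hne
  refine ⟨Sp (fil F), inferInstance, h3, sp_strong (fil_strong hI2 hI3 F hF1 hF2), fun hQ => ?_⟩
  obtain ⟨c, hc1, hc2⟩ := fan_selective hQ (fun n m => {z | ∃ γ, z = inc (fil F) (n, m, γ)})
    (pt (fil F)) isClosed_singleton (by
      intro n m
      rw [← isOpen_compl_iff, isOpen_sp]
      intro _
      refine mem_of_superset (fil_col F (n + 1)) ?_
      rintro ⟨n', m', γ'⟩ ht ⟨γ, hγ⟩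
      have h4 := inc_inj hγ
      have h5 : n + 1 ≤ n' := ht
      have h6 : n' = n := congrArg (fun x : ℕ × ℕ × I => x.1) h4
      omega) (fun n m => ⟨inc (fil F) (n, m, Classical.arbitrary I), _, rfl⟩) (by
      intro U hU hpU
      obtain ⟨N, Δ, hN⟩ := mem_fil.1 (isOpen_sp.1 hU hpU)
      obtain ⟨i, hi⟩ := hI3 (Δ : Set I) Δ.finite_toSet.countable
      refine ⟨N, fun n hn m => ⟨inc (fil F) (n, m, i), ⟨i, rfl⟩, ?_⟩⟩
      by_contra hcc
      rcases hN (n, m, i) hcc with h4 | ⟨δ, h5, h6, -⟩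
      · have h7 : n < N := h4
        omega
      · exact absurd (hi δ h5) (not_lt.2 (le_of_lt h6)))
  choose γ hγ using hc1
  obtain ⟨δ, hδ⟩ := hI3 (range fun x : ℕ × ℕ => γ x.1 x.2) (countable_range _)
  obtain ⟨N, hN⟩ := hc2 {z | z = pt (fil F) ∨ ∃ t ∈ {t : ℕ × ℕ × I | ¬ (t.2.2 < δ ∧ F δ t.1 ≤ t.2.1)},
    z = inc (fil F) t} (by
      rw [isOpen_sp]
      intro _
      exact mem_of_superset (fil_J F δ) fun t ht => Or.inr ⟨t, ht, rfl⟩) (Or.inl rfl)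
  have h4 := hN N le_rfl (F δ N)
  rw [hγ] at h4
  rcases h4 with h4 | ⟨t, ht, h4⟩
  · exact inc_ne _ h4
  · rw [← inc_inj h4] at ht
    exact ht ⟨hδ _ ⟨(N, F δ N), rfl⟩, le_rfl⟩

end Pool.Agent.H58.SEL
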