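import Pool.Agent.H58.SEL.CG

/-!
# Countable `C`-selective spaces are first countable
-/

open Filter Topology Set

namespace Pool.Agent.H58.SEL

/-- `X` is `C`-selective: it is `Y`-selective for every countable regular space `Y`. -/
def CSelective.{u} (X : Type u) [TopologicalSpace X] : Prop :=
  ∀ (Y : Type) [TopologicalSpace Y] [T3Space Y] [Countable Y], Selective Y X

/-- The filter on the pairs of points. -/
def pairs {Z : Type} [TopologicalSpace Z] (z : Z) :
    Filter {p : Z × Z // p.1 ≠ z ∧ p.2 ≠ z} :=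
  (𝓝 z).lift' fun U => {p | p.1.1 ∈ U ∨ p.1.2 ∈ U}

theorem mem_pairs {Z : Type} [TopologicalSpace Z] {z : Z}
    {S : Set {p : Z × Z // p.1 ≠ z ∧ p.2 ≠ z}} :
    S ∈ pairs z ↔ ∃ U ∈ 𝓝 z, ∀ p : {p : Z × Z // p.1 ≠ z ∧ p.2 ≠ z},
      p.1.1 ∈ U ∨ p.1.2 ∈ U → p ∈ S := by
  unfold pairs
  rw [mem_lift'_sets]
  · rfl
  · intro U V hUV p hp
    exact hp.imp (fun h => hUV h) fun h => hUV h

/-- A countable `C`-selective `T₁` space is first countable. -/
theorem firstCountable_of_cSelective {Z : Type} [TopologicalSpace Z] [T1Space Z] [Countable Z]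
    (h : CSelective Z) : FirstCountableTopology Z := by
  classical
  refine ⟨fun z => ?_⟩
  set F := pairs z with hF
  haveI h3 : T3Space (Sp F) := by
    refine sp_t3 fun t => ?_
    rw [hF, mem_pairs]
    refine ⟨{t.1.1}ᶜ ∩ {t.1.2}ᶜ, inter_mem (isOpen_compl_singleton.mem_nhds t.2.1.symm)
      (isOpen_compl_singleton.mem_nhds t.2.2.symm), ?_⟩
    rintro p hp rfl
    rcases hp with hp | hp
    · exact hp.1 rfl
    · exact hp.2 rfl
  haveI : Countable (Sp F) := inferInstanceAs (Countable (Option _))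
  set φ : Sp F → Set Z := fun w => {y | (w = pt F ∧ y = z) ∨
    ∃ p : {p : Z × Z // p.1 ≠ z ∧ p.2 ≠ z}, w = inc F p ∧ (y = p.1.1 ∨ y = p.1.2)} with hφ
  have hφ0 : φ (pt F) = {z} := by
    ext y
    constructor
    · rintro (⟨-, h1⟩ | ⟨p, h1, -⟩)
      · exact h1
      · exact absurd h1.symm (inc_ne p)
    · intro h1
      exact Or.inl ⟨rfl, h1⟩
  have hφ1 : ∀ p : {p : Z × Z // p.1 ≠ z ∧ p.2 ≠ z}, φ (inc F p) = {p.1.1, p.1.2} := by
    intro p
    ext y
    constructor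
    · rintro (⟨h1, -⟩ | ⟨p', h1, h2⟩)
      · exact absurd h1 (inc_ne p)
      · rw [inc_inj h1]
        exact h2
    · intro h1
      exact Or.inr ⟨p, rfl, h1⟩
  obtain ⟨f, hf1, hf2⟩ := h (Sp F) φ (by
    intro U hU
    rw [isOpen_sp]
    intro hp
    have hzU : z ∈ U := by
      obtain ⟨y, hy1, hy2⟩ := hp
      rw [hφ0, mem_singleton_iff] at hy1
      rwa [hy1] at hy2
    rw [hF, mem_pairs]
    refine ⟨U, hU.mem_nhds hzU, fun p hp => ?_⟩
    change (φ (inc F p) ∩ U).Nonempty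
    rw [hφ1]
    rcases hp with hp | hp
    · exact ⟨_, Or.inl rfl, hp⟩
    · exact ⟨_, Or.inr rfl, hp⟩) (by
    intro w
    rcases sp_cases w with rfl | ⟨p, rfl⟩
    · rw [hφ0]
      exact singleton_nonempty z
    · rw [hφ1]
      exact ⟨_, Or.inl rfl⟩) (by
    intro w
    rcases sp_cases w with rfl | ⟨p, rfl⟩
    · rw [hφ0]
      exact isClosed_singleton
    · rw [hφ1]
      exact (toFinite _).isClosed)
  have hf0 : f (pt F) = z := by
    have := hf2 (pt F)
    rwa [hφ0, mem_singleton_iff] at this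
  have hfp : ∀ p : {p : Z × Z // p.1 ≠ z ∧ p.2 ≠ z}, f (inc F p) = p.1.1 ∨ f (inc F p) = p.1.2 := by
    intro p
    have := hf2 (inc F p)
    rw [hφ1] at this
    exact this
  -- the uniformity
  have hunif : ∀ U ∈ 𝓝 z, ∃ V ∈ 𝓝 z, ∀ p : {p : Z × Z // p.1 ≠ z ∧ p.2 ≠ z},
      p.1.1 ∈ V ∨ p.1.2 ∈ V → f (inc F p) ∈ U := by
    intro U hU
    have h1 : f ⁻¹' U ∈ 𝓝 (pt F) := hf1.continuousAt (by rw [hf0]; exact hU)
    have h2 := (nhds_pt.1 h1).2
    rw [hF, mem_pairs] at h2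
    exact h2
  -- the sets `B y`
  set B : {y : Z // y ≠ z} → Set Z := fun y =>
    {x | x = z ∨ ∃ hx : x ≠ z, f (inc F ⟨(x, y.1), hx, y.2⟩) ≠ y.1} with hB
  have hBn : ∀ y, B y ∈ 𝓝 z := by
    intro y
    obtain ⟨V, hV, h1⟩ := hunif {y.1}ᶜ (isOpen_compl_singleton.mem_nhds y.2.symm)
    filter_upwards [hV] with x hx
    by_cases hxz : x = z
    · exact Or.inl hxz
    · exact Or.inr ⟨hxz, h1 ⟨(x, y.1), hxz, y.2⟩ (Or.inl hx)⟩
  by_cases hiso : {z} ∈ 𝓝 z
  · have h1 : 𝓝 z = pure z := by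
      refine le_antisymm ?_ (pure_le_nhds z)
      rw [← principal_singleton]
      exact le_principal_iff.2 hiso
    rw [h1]
    infer_instance
  · have hle : 𝓝 z = ⨅ y, 𝓟 (B y) := by
      refine le_antisymm ?_ ?_
      · exact le_iInf fun y => le_principal_iff.2 (hBn y)
      · intro U hU
        obtain ⟨V, hV, h1⟩ := hunif U hU
        have h2 : ∃ y ∈ V, y ≠ z := by
          by_contra hc
          push Not at hc
          exact hiso (mem_of_superset hV fun y hy => hc y hy)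
        obtain ⟨y, hy1, hy2⟩ := h2
        have h4 : B ⟨y, hy2⟩ ⊆ U := by
          rintro x (rfl | ⟨hx, hne⟩)
          · exact mem_of_mem_nhds hU
          · have h5 := h1 ⟨(x, y), hx, hy2⟩ (Or.inr hy1)
            rcases hfp ⟨(x, y), hx, hy2⟩ with h6 | h6
            · rwa [h6] at h5
            · exact absurd h6 hne
        exact mem_of_superset (mem_iInf_of_mem ⟨y, hy2⟩ (mem_principal_self _)) h4
    rw [hle]
    infer_instance

end Pool.Agent.H58.SEL
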